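import Pool.Agent.Lib.K5C.End
import Pool.Agent.Lib.K5F.Form
import Pool.Agent.Lib.K5F.HypE
import Pool.Agent.Lib.K5F.KapL
import Pool.Agent.Lib.K5L.Ident
import Pool.Agent.Lib.K5L.Glue
import Pool.Agent.Lib.K5L.BoxNum

/-!
# K5C.Law: the asymptotic law from the box of the critical point
-/

set_option autoImplicit false

namespace K5C

open K5N K5S K5P Set Filter Topology
open scoped ENNReal

noncomputable section

/-- `D/(1+D) - y κ^2 < 1/2` at the critical point. -/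
theorem box_hn {r s y t : ℝ} (hB : K5L.Box r s y t) :
    pD r s y t / (1 + pD r s y t) - y * pkap r s y t ^ 2 < 1 / 2 := by
  have hG := hB.crit.toGood
  have hx := hB.px_le
  have hD : pD r s y t ≤ 11 / 10 := hB.fD_le
  have hx0 : 0 < px r s y t := hG.x_pos
  obtain ⟨r1, r2⟩ := abs_le.1 hB.r1
  obtain ⟨s1, s2⟩ := abs_le.1 hB.s1
  obtain ⟨y1, y2⟩ := abs_le.1 hB.y1
  obtain ⟨t1, t2⟩ := abs_le.1 hB.t1
  norm_num at r1 r2 s1 s2 y1 y2 t1 t2
  have hr : 15 / 100 ≤ r := by linarith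
  have hr' : r ≤ 151 / 1000 := by linarith
  have hs : 172 / 100 ≤ s := by linarith
  have hs' : s ≤ 1729 / 1000 := by linarith
  have hy : 1 / 5 ≤ y := by linarith
  have hy' : y ≤ 206 / 1000 := by linarith
  have ht' : t ≤ 11 / 10000 := by linarith
  have ht : 0 < t := hB.crit.t_pos
  have h1 : 258 / 1000 ≤ r * s := by nlinarith
  have h1' : r * s ≤ 262 / 1000 := by nlinarith
  have h2 : y * (r + s) ≤ 206 / 1000 * (188 / 100) :=
    mul_le_mul hy' (by linarith) (by linarith) (by norm_num)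
  have h3 : (r + s) ^ 2 + r * s ≤ 4 := by nlinarith
  have h4 : t * ((r + s) ^ 2 + r * s) ≤ 11 / 10000 * 4 :=
    mul_le_mul ht' h3 (by positivity) (by norm_num)
  have h5 : 21 / 100 ≤ 1 - 2 * y * (r + s) - 3 * t * ((r + s) ^ 2 + r * s) := by nlinarith
  have hw : 374 / 10000 ≤ pw1 r s y t := by
    unfold pw1
    nlinarith
  have hk : 1 ≤ pkap r s y t := by
    unfold pkap
    rw [le_div_iff₀ hx0]
    linarith
  have hk2 : 1 ≤ pkap r s y t ^ 2 := by nlinarith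
  have hyk : 1 / 5 ≤ y * pkap r s y t ^ 2 := by nlinarith
  have hD1 : 1 ≤ pD r s y t := le_trans (by norm_num) hB.num.2.1.1
  have hDq : pD r s y t / (1 + pD r s y t) ≤ 6 / 10 := by
    rw [div_le_iff₀ (by linarith)]
    linarith
  linarith

/-- The asymptotic law with the exact growth constant, from the box of the critical point. -/
theorem law (S : Sys2) (hT : ∀ x z : ℝ≥0∞, ser2 S.tc x z = K5.T0 x z)
    (hDg : ∀ x, S.Dg x = K5.D x) {r s y t : ℝ} (hB : K5L.Box r s y t) (hP : K5L.PC r s y t)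
    (hH : K5L.HH K5L.dD r s y t ≤ 2500) :
    K5F.Law (Real.exp (pBx 1 r s y t) / px r s y t) := by
  obtain ⟨ρ, σ, υ, τ, ζ, z3, A, e1, e2, e3, e4, hT3, hz3, hζ⟩ := hP.arc
  set R := px r s y t with hRdef
  have hR : 0 < R := A.R_pos
  have hR2 : R ≤ 374 / 10000 := hB.px_le
  have hR1 : R < 1 := by linarith
  have hid := K5L.ident S A
  have hI : ∀ᶠ v in 𝓝[≥] (0 : ℝ), Idt S (R * (1 - v ^ 2)) (ρ v) (σ v) (υ v) (τ v) := by
    filter_upwards [hid, A.good, A.x_eq.filter_mono nhdsWithin_le_nhds,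
      A.M.filter_mono nhdsWithin_le_nhds, A.D_one.filter_mono nhdsWithin_le_nhds]
      with v h1 h2 h3 h4 h5
    exact ⟨h2, h3, zero_lt_one.trans h5, h4, h1.1, h1.2.2⟩
  have hn : pD (ρ 0) (σ 0) (υ 0) (τ 0) / (1 + pD (ρ 0) (σ 0) (υ 0) (τ 0)) -
      υ 0 * pkap (ρ 0) (σ 0) (υ 0) (τ 0) ^ 2 < 1 / 2 := by
    rw [e1, e2, e3, e4]
    exact box_hn hB
  have aρ := A.an_r.analyticAt
  have aσ := A.an_s.analyticAt
  have aυ := A.an_y.analyticAt
  have aτ := A.an_t.analyticAt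
  obtain ⟨h0, hreg⟩ := arc_reg hR1 hI
  have hf : K5.D (.ofReal R) ≠ ⊤ := by rw [← hDg]; exact h0.fin
  have hD : ∀ x, 0 ≤ x → x < R → K5.D (.ofReal x) ≠ ⊤ := by
    intro x _ hxR
    rw [← hDg]
    exact Dg_fin hxR.le h0.fin
  have hYp : ∀ w, 0 < w → w < R → 0 < Yp S.toSys (qp S w (Dr S w)) := fun w hw hwR =>
    h0.Yp_pos hn hw hwR.le
  have hda : K5L.DArc K5.D R ρ σ υ τ := by
    unfold K5L.DArc
    filter_upwards [hid] with v hv
    rw [← hDg]
    exact hv.2.2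
  have heD := hda.heD hR A.D_one hζ
  have hSgD : K5F.Sg R K5F.Dc ζ := K5F.Sg_Dc hR hD hT3.an heD
  obtain ⟨b, hb, hbe⟩ := heB hT hDg K5F.hyp hR hR1 aρ aσ aυ aτ hI hn
  have hSgB : K5F.Sg R K5F.Bn b := K5F.hyp.Sg_Bn hR hD hb hbe
  have hdrR : K5T.fr K5F.Dc R ≤ 11 / 10 := by
    rw [K5F.fr_Dc hR.le hf]
    have h1 : K5F.dr R = pD (ρ 0) (σ 0) (υ 0) (τ 0) := by
      unfold K5F.dr
      rw [← hDg, h0.dg, ENNReal.toReal_ofReal h0.D_pos.le]
    rw [h1, e1, e2, e3, e4]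
    exact hB.fD_le
  have kap := K5F.kap_H hSgD hT3 hR2 hdrR hH
  refine K5F.form hSgD hT3 (by exact_mod_cast hz3) hSgB kap (F := K5F.BF)
    (G := fun x => pBx 1 (PN S x).1 (PN S x).2.1 (PN S x).2.2.1 (PN S x).2.2.2) ?_ ?_ ?_
  · filter_upwards [Ioo_mem_nhdsLT hR] with x hx
    exact K5F.hyp.B_fr hx.1 (hD x hx.1.le hx.2)
  · filter_upwards [Ioo_mem_nhdsLT hR] with x hx
    exact BF_deriv hT hDg K5F.hyp hx.1 hx.2 hR1.le hf hYp
  · have hc : Tendsto (fun v => pBx 1 (ρ v) (σ v) (υ v) (τ v)) (𝓝[≥] (0 : ℝ))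
        (𝓝 (pBx 1 (ρ 0) (σ 0) (υ 0) (τ 0))) :=
      (an_pBx (v := 1) (by norm_num) aρ aσ aυ aτ hreg).continuousAt.tendsto.mono_left
        nhdsWithin_le_nhds
    rw [e1, e2, e3, e4] at hc
    refine (hc.comp (tendsto_sqrt hR)).congr' ?_
    filter_upwards [PN_arc hR hR1.le hI hn] with x hx
    rw [hx]
    rfl

end

end K5C
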