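import Pool.Agent.Lib.K5C.Defs

/-!
# K5C.An: the closed forms are analytic functions of the parameters
-/

namespace K5C

open K5N

noncomputable section

/-- Regular parameters. -/
structure Reg (r s y t : ℝ) : Prop where
  r0 : 0 < r
  rs : r < s
  x0 : 0 < px r s y t
  x1 : px r s y t < 1
  k0 : 0 < pkap r s y t
  D0 : 0 < 1 + pD r s y t
  xD0 : 0 < 1 + px r s y t * pD r s y t

variable {E : Type*} [NormedAddCommGroup E] [NormedSpace ℝ E] {r s y t : E → ℝ} {e : E}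

theorem an_px (hr : AnalyticAt ℝ r e) (hs : AnalyticAt ℝ s e) (hy : AnalyticAt ℝ y e)
    (ht : AnalyticAt ℝ t e) : AnalyticAt ℝ (fun e => px (r e) (s e) (y e) (t e)) e := by
  unfold px
  fun_prop

theorem an_pb (hr : AnalyticAt ℝ r e) (hs : AnalyticAt ℝ s e) (hy : AnalyticAt ℝ y e)
    (ht : AnalyticAt ℝ t e) : AnalyticAt ℝ (fun e => pb (r e) (s e) (y e) (t e)) e := by
  unfold pb
  fun_prop

theorem an_pw1 (hr : AnalyticAt ℝ r e) (hs : AnalyticAt ℝ s e) (hy : AnalyticAt ℝ y e)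
    (ht : AnalyticAt ℝ t e) : AnalyticAt ℝ (fun e => pw1 (r e) (s e) (y e) (t e)) e := by
  unfold pw1
  fun_prop

theorem an_pw2 (hr : AnalyticAt ℝ r e) (hs : AnalyticAt ℝ s e) (hy : AnalyticAt ℝ y e)
    (ht : AnalyticAt ℝ t e) : AnalyticAt ℝ (fun e => pw2 (r e) (s e) (y e) (t e)) e := by
  unfold pw2
  fun_prop

theorem an_pw3 (hr : AnalyticAt ℝ r e) (hs : AnalyticAt ℝ s e) (hy : AnalyticAt ℝ y e)
    (ht : AnalyticAt ℝ t e) : AnalyticAt ℝ (fun e => pw3 (r e) (s e) (y e) (t e)) e := by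
  unfold pw3
  fun_prop

theorem an_pkap (hr : AnalyticAt ℝ r e) (hs : AnalyticAt ℝ s e) (hy : AnalyticAt ℝ y e)
    (ht : AnalyticAt ℝ t e) (h : Reg (r e) (s e) (y e) (t e)) :
    AnalyticAt ℝ (fun e => pkap (r e) (s e) (y e) (t e)) e := by
  unfold pkap
  exact (an_pw1 hr hs hy ht).div (an_px hr hs hy ht) h.x0.ne'

theorem an_pT (hr : AnalyticAt ℝ r e) (hs : AnalyticAt ℝ s e) (hy : AnalyticAt ℝ y e)
    (ht : AnalyticAt ℝ t e) (h : Reg (r e) (s e) (y e) (t e)) :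
    AnalyticAt ℝ (fun e => pT (r e) (s e) (y e) (t e)) e := by
  have hk := an_pkap hr hs hy ht h
  unfold pT
  fun_prop

theorem an_pY (hr : AnalyticAt ℝ r e) (hs : AnalyticAt ℝ s e) (hy : AnalyticAt ℝ y e)
    (ht : AnalyticAt ℝ t e) (h : Reg (r e) (s e) (y e) (t e)) :
    AnalyticAt ℝ (fun e => pY (r e) (s e) (y e) (t e)) e := by
  have hk := an_pkap hr hs hy ht h
  have hT := an_pT hr hs hy ht h
  unfold pY
  fun_prop

theorem an_pD (hr : AnalyticAt ℝ r e) (hs : AnalyticAt ℝ s e) (hy : AnalyticAt ℝ y e)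
    (ht : AnalyticAt ℝ t e) (h : Reg (r e) (s e) (y e) (t e)) :
    AnalyticAt ℝ (fun e => pD (r e) (s e) (y e) (t e)) e := by
  have hx := an_px hr hs hy ht
  have hk := an_pkap hr hs hy ht h
  unfold pD
  exact ((((an_pw2 hr hs hy ht).div (hk.pow 2) (pow_ne_zero 2 h.k0.ne')).sub hx).div (hx.pow 2)
    (pow_ne_zero 2 h.x0.ne')).sub analyticAt_const

theorem an_pN (hr : AnalyticAt ℝ r e) (hs : AnalyticAt ℝ s e) (hy : AnalyticAt ℝ y e)
    (ht : AnalyticAt ℝ t e) (h : Reg (r e) (s e) (y e) (t e)) :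
    AnalyticAt ℝ (fun e => pN (r e) (s e) (y e) (t e)) e := by
  have hx := an_px hr hs hy ht
  have hk := an_pkap hr hs hy ht h
  have hD := an_pD hr hs hy ht h
  have hw := (an_pw3 hr hs hy ht).div (hk.pow 3) (pow_ne_zero 3 h.k0.ne')
  unfold pN
  refine AnalyticAt.div ?_ (hx.pow 3) (pow_ne_zero 3 h.x0.ne')
  exact (hw.sub ((analyticAt_const.mul (hx.pow 2)).mul (analyticAt_const.add hD))).sub hx

theorem an_pA (hr : AnalyticAt ℝ r e) (hs : AnalyticAt ℝ s e) (hy : AnalyticAt ℝ y e)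
    (ht : AnalyticAt ℝ t e) (h : Reg (r e) (s e) (y e) (t e)) :
    AnalyticAt ℝ (fun e => pA (r e) (s e) (y e) (t e)) e := by
  have hN := an_pN hr hs hy ht h
  have hD := an_pD hr hs hy ht h
  have hT := an_pT hr hs hy ht h
  unfold pA
  exact ((hN.div ((analyticAt_const.add hD).pow 3) (pow_ne_zero 3 h.D0.ne')).sub
    analyticAt_const).sub hT

theorem an_pK (hr : AnalyticAt ℝ r e) (hs : AnalyticAt ℝ s e) (hy : AnalyticAt ℝ y e)
    (ht : AnalyticAt ℝ t e) (h : Reg (r e) (s e) (y e) (t e)) :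
    AnalyticAt ℝ (fun e => pK (r e) (s e) (y e) (t e)) e := by
  have hx := an_px hr hs hy ht
  have hD := an_pD hr hs hy ht h
  have hT := an_pT hr hs hy ht h
  have hY := an_pY hr hs hy ht h
  have h1 : AnalyticAt ℝ (fun e => pD (r e) (s e) (y e) (t e) / (1 + pD (r e) (s e) (y e) (t e)))
      e := hD.div (analyticAt_const.add hD) h.D0.ne'
  have h2 : AnalyticAt ℝ (fun e => px (r e) (s e) (y e) (t e) * pD (r e) (s e) (y e) (t e) ^ 2 /
      (1 + px (r e) (s e) (y e) (t e) * pD (r e) (s e) (y e) (t e))) e :=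
    (hx.mul (hD.pow 2)).div (analyticAt_const.add (hx.mul hD)) h.xD0.ne'
  unfold pK
  fun_prop

theorem an_log (hr : AnalyticAt ℝ r e) (h : 0 < r e) : AnalyticAt ℝ (fun e => Real.log (r e)) e :=
  (analyticAt_log h).comp hr

theorem an_exp (hr : AnalyticAt ℝ r e) : AnalyticAt ℝ (fun e => Real.exp (r e)) e :=
  hr.rexp'

theorem an_pF (hr : AnalyticAt ℝ r e) (hs : AnalyticAt ℝ s e) (hy : AnalyticAt ℝ y e)
    (ht : AnalyticAt ℝ t e) (h : Reg (r e) (s e) (y e) (t e)) :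
    AnalyticAt ℝ (fun e => pF (r e) (s e) (y e) (t e)) e := by
  have hx := an_px hr hs hy ht
  have h2 := an_pw2 hr hs hy ht
  have h3 := an_pw3 hr hs hy ht
  have l1 : AnalyticAt ℝ (fun e => Real.log (r e / px (r e) (s e) (y e) (t e))) e :=
    an_log (hr.div hx h.x0.ne') (div_pos h.r0 h.x0)
  have l2 : AnalyticAt ℝ (fun e => Real.log (s e)) e := an_log hs (h.r0.trans h.rs)
  have l3 : AnalyticAt ℝ (fun e => Real.log ((s e - r e) / (1 - px (r e) (s e) (y e) (t e)))) e :=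
    an_log ((hs.sub hr).div (analyticAt_const.sub hx) (sub_pos.2 h.x1).ne')
      (div_pos (sub_pos.2 h.rs) (sub_pos.2 h.x1))
  unfold pF cF
  fun_prop

theorem an_pf (hr : AnalyticAt ℝ r e) (hs : AnalyticAt ℝ s e) (hy : AnalyticAt ℝ y e)
    (ht : AnalyticAt ℝ t e) (h : Reg (r e) (s e) (y e) (t e)) :
    AnalyticAt ℝ (fun e => cf (px (r e) (s e) (y e) (t e)) (r e) (s e) (y e) (t e)) e := by
  have hx := an_px hr hs hy ht
  have l1 : AnalyticAt ℝ (fun e => Real.log (r e / px (r e) (s e) (y e) (t e))) e :=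
    an_log (hr.div hx h.x0.ne') (div_pos h.r0 h.x0)
  have l3 : AnalyticAt ℝ (fun e => Real.log ((s e - r e) / (1 - px (r e) (s e) (y e) (t e)))) e :=
    an_log ((hs.sub hr).div (analyticAt_const.sub hx) (sub_pos.2 h.x1).ne')
      (div_pos (sub_pos.2 h.rs) (sub_pos.2 h.x1))
  unfold cf
  fun_prop

theorem an_cG {A T : E → ℝ} (hA : AnalyticAt ℝ A e) (hT : AnalyticAt ℝ T e) :
    AnalyticAt ℝ (fun e => cG (A e) (T e)) e := by
  have := an_exp hA
  unfold cG
  fun_prop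

theorem an_cE {x D T : E → ℝ} (hx : AnalyticAt ℝ x e) (hD : AnalyticAt ℝ D e)
    (hT : AnalyticAt ℝ T e) (h1 : 0 < 1 + D e) (h2 : 0 < 1 + x e * D e) :
    AnalyticAt ℝ (fun e => cE (x e) (D e) (T e)) e := by
  have l1 : AnalyticAt ℝ (fun e => Real.log (1 + D e)) e := an_log (analyticAt_const.add hD) h1
  have l2 : AnalyticAt ℝ (fun e => Real.log (1 + x e * D e)) e :=
    an_log (analyticAt_const.add (hx.mul hD)) h2
  have l3 : AnalyticAt ℝ (fun e => (x e ^ 2 - x e) * D e / (1 + x e * D e)) e :=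
    ((((hx.pow 2).sub hx).mul hD).div (analyticAt_const.add (hx.mul hD)) h2.ne')
  unfold cE
  fun_prop

theorem an_cEx {x D T : E → ℝ} (hx : AnalyticAt ℝ x e) (hD : AnalyticAt ℝ D e)
    (hT : AnalyticAt ℝ T e) (h1 : 0 < 1 + D e) (h2 : 0 < 1 + x e * D e) :
    AnalyticAt ℝ (fun e => cEx (x e) (D e) (T e)) e := by
  have l1 : AnalyticAt ℝ (fun e => Real.log (1 + D e)) e := an_log (analyticAt_const.add hD) h1
  have hd : AnalyticAt ℝ (fun e => 1 + x e * D e) e := analyticAt_const.add (hx.mul hD)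
  have l2 : AnalyticAt ℝ (fun e => D e / (1 + x e * D e)) e := hD.div hd h2.ne'
  have l3 : AnalyticAt ℝ (fun e => ((2 * x e - 1) * D e * (1 + x e * D e) - (x e ^ 2 - x e) *
      D e ^ 2) / (1 + x e * D e) ^ 2) e := by
    refine AnalyticAt.div ?_ (hd.pow 2) (pow_ne_zero 2 h2.ne')
    fun_prop
  unfold cEx
  fun_prop

theorem an_pT0 (hr : AnalyticAt ℝ r e) (hs : AnalyticAt ℝ s e) (hy : AnalyticAt ℝ y e)
    (ht : AnalyticAt ℝ t e) (h : Reg (r e) (s e) (y e) (t e)) :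
    AnalyticAt ℝ (fun e => pT0 (r e) (s e) (y e) (t e)) e := by
  have hx := an_px hr hs hy ht
  have hD := an_pD hr hs hy ht h
  have hK := an_pK hr hs hy ht h
  have hG := an_cG (an_pA hr hs hy ht h) (an_pT hr hs hy ht h)
  unfold pT0 cT0
  fun_prop

theorem an_pT5 (hr : AnalyticAt ℝ r e) (hs : AnalyticAt ℝ s e) (hy : AnalyticAt ℝ y e)
    (ht : AnalyticAt ℝ t e) (h : Reg (r e) (s e) (y e) (t e)) :
    AnalyticAt ℝ (fun e => pT5 (r e) (s e) (y e) (t e)) e := by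
  have hx := an_px hr hs hy ht
  have hD := an_pD hr hs hy ht h
  have hK := an_pK hr hs hy ht h
  have hT := an_pT hr hs hy ht h
  have hY := an_pY hr hs hy ht h
  have hk := an_pkap hr hs hy ht h
  have hF := an_pF hr hs hy ht h
  have hG := an_cG (an_pA hr hs hy ht h) hT
  have hE := an_cE hx hD hT h.D0 h.xD0
  have hl : AnalyticAt ℝ (fun e => Real.log (pkap (r e) (s e) (y e) (t e))) e := an_log hk h.k0
  unfold pT5 cT5 cTp
  fun_prop

theorem an_pB {v : ℝ} (hv : 0 < 1 + v) (hr : AnalyticAt ℝ r e) (hs : AnalyticAt ℝ s e)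
    (hy : AnalyticAt ℝ y e) (ht : AnalyticAt ℝ t e) (h : Reg (r e) (s e) (y e) (t e)) :
    AnalyticAt ℝ (fun e => pB v (r e) (s e) (y e) (t e)) e := by
  have h5 := an_pT5 hr hs hy ht h
  have hx := an_px hr hs hy ht
  have hD := an_pD hr hs hy ht h
  have l1 : AnalyticAt ℝ (fun e => Real.log (1 + px (r e) (s e) (y e) (t e) *
      pD (r e) (s e) (y e) (t e))) e := an_log (analyticAt_const.add (hx.mul hD)) h.xD0
  have l2 : AnalyticAt ℝ (fun e => Real.log ((1 + v) / (1 + pD (r e) (s e) (y e) (t e)))) e :=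
    an_log (analyticAt_const.div (analyticAt_const.add hD) h.D0.ne') (div_pos hv h.D0)
  unfold pT5 at h5
  unfold pB cB
  fun_prop

theorem an_pM (hr : AnalyticAt ℝ r e) (hs : AnalyticAt ℝ s e) (hy : AnalyticAt ℝ y e)
    (ht : AnalyticAt ℝ t e) (h : Reg (r e) (s e) (y e) (t e)) :
    AnalyticAt ℝ (fun e => pM (r e) (s e) (y e) (t e)) e := by
  have hA := an_pA hr hs hy ht h
  have hT := an_pT hr hs hy ht h
  have := an_exp hA
  unfold pM
  fun_prop

theorem an_pNet {v : ℝ} (hv : 0 < 1 + v) (hr : AnalyticAt ℝ r e) (hs : AnalyticAt ℝ s e)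
    (hy : AnalyticAt ℝ y e) (ht : AnalyticAt ℝ t e) (h : Reg (r e) (s e) (y e) (t e)) :
    AnalyticAt ℝ (fun e => pNet v (r e) (s e) (y e) (t e)) e := by
  have h0 := an_pT0 hr hs hy ht h
  have hx := an_px hr hs hy ht
  have hD := an_pD hr hs hy ht h
  have l1 : AnalyticAt ℝ (fun e => Real.log ((1 + pD (r e) (s e) (y e) (t e)) / (1 + v))) e :=
    an_log ((analyticAt_const.add hD).div analyticAt_const hv.ne') (div_pos h.D0 hv)
  have l2 : AnalyticAt ℝ (fun e => px (r e) (s e) (y e) (t e) * pD (r e) (s e) (y e) (t e) ^ 2 /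
      (1 + px (r e) (s e) (y e) (t e) * pD (r e) (s e) (y e) (t e))) e :=
    (hx.mul (hD.pow 2)).div (analyticAt_const.add (hx.mul hD)) h.xD0.ne'
  unfold pNet
  fun_prop

theorem an_pBx {v : ℝ} (hv : 0 < 1 + v) (hr : AnalyticAt ℝ r e) (hs : AnalyticAt ℝ s e)
    (hy : AnalyticAt ℝ y e) (ht : AnalyticAt ℝ t e) (h : Reg (r e) (s e) (y e) (t e)) :
    AnalyticAt ℝ (fun e => pBx v (r e) (s e) (y e) (t e)) e := by
  have hx := an_px hr hs hy ht
  have hD := an_pD hr hs hy ht h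
  have hK := an_pK hr hs hy ht h
  have hT := an_pT hr hs hy ht h
  have hY := an_pY hr hs hy ht h
  have hk := an_pkap hr hs hy ht h
  have hf := an_pf hr hs hy ht h
  have hG := an_cG (an_pA hr hs hy ht h) hT
  have hE := an_cEx hx hD hT h.D0 h.xD0
  have hl : AnalyticAt ℝ (fun e => Real.log (pkap (r e) (s e) (y e) (t e))) e := an_log hk h.k0
  have hd : AnalyticAt ℝ (fun e => 1 + px (r e) (s e) (y e) (t e) *
      pD (r e) (s e) (y e) (t e)) e := analyticAt_const.add (hx.mul hD)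
  have l2 : AnalyticAt ℝ (fun e => pD (r e) (s e) (y e) (t e) / (1 + px (r e) (s e) (y e) (t e) *
      pD (r e) (s e) (y e) (t e))) e := hD.div hd h.xD0.ne'
  have l3 : AnalyticAt ℝ (fun e => -(pD (r e) (s e) (y e) (t e) ^ 2) / (1 +
      px (r e) (s e) (y e) (t e) * pD (r e) (s e) (y e) (t e)) ^ 2) e :=
    (hD.pow 2).neg.div (hd.pow 2) (pow_ne_zero 2 h.xD0.ne')
  have l4 : AnalyticAt ℝ (fun e => Real.log ((1 + v) / (1 + pD (r e) (s e) (y e) (t e)))) e :=
    an_log (analyticAt_const.div (analyticAt_const.add hD) h.D0.ne') (div_pos hv h.D0)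
  unfold pBx cBx
  fun_prop

end

end K5C
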