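import Pool.Agent.Lib.K5C.DF

/-!
# K5C.DB: the derivative of the generating function of the 2-connected graphs

Along a path with `pb = 1`, on which `px` varies.  All the parameters except `x` are stationary: the marks by `pM = 0`,
the networks by `pNet = 0`, and `F` by the equations of the maps.
-/

namespace K5C

open K5N

noncomputable section

variable {r s y t : ℝ → ℝ} {r' s' y' t' z : ℝ}

namespace DBAux

/-- The differential of the free energy when `px` varies. -/
theorem hasDerivAt_cF {X : ℝ → ℝ} {X' : ℝ} (hr : HasDerivAt r r' z) (hs : HasDerivAt s s' z)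
    (hy : HasDerivAt y y' z) (ht : HasDerivAt t t' z) (hX : HasDerivAt X X' z)
    (hx : px (r z) (s z) (y z) (t z) = X z) (hb : pb (r z) (s z) (y z) (t z) = 1)
    (hx' : dpx (r z) (s z) (y z) (t z) r' s' y' t' = X')
    (hb' : dpb (r z) (s z) (y z) (t z) r' s' y' t' = 0)
    (hr0 : r z ≠ 0) (hs0 : s z ≠ 0) (hrs : s z - r z ≠ 0) (hx0 : X z ≠ 0) (hx1 : 1 - X z ≠ 0) :
    HasDerivAt (fun w => cF (X w) (r w) (s w) (y w) (t w))
      (cf (X z) (r z) (s z) (y z) (t z) * X' +
        pw2 (r z) (s z) (y z) (t z) / 2 * y' + pw3 (r z) (s z) (y z) (t z) / 3 * t') z := by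
  have hX1 : HasDerivAt (fun w => 1 - X w) (-X') z := by
    simpa using hX.const_sub 1
  have h1 := (hr.div hX hx0).log (div_ne_zero hr0 hx0)
  have h2 := hs.log hs0
  have h3 := ((hs.sub hr).div hX1 hx1).log (div_ne_zero hrs hx1)
  have w2 := hasDerivAt_pw2 hr hs hy ht
  have w3 := hasDerivAt_pw3 hr hs hy ht
  have a2 := hs.mul (hs.add (hr.const_mul 2))
  have b2 := hr.mul (hr.add (hs.const_mul 2))
  have a3 := hs.mul (((hs.pow 2).add ((hr.const_mul 6).mul hs)).add ((hr.pow 2).const_mul 3))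
  have b3 := hr.mul (((hr.pow 2).add ((hr.const_mul 6).mul hs)).add ((hs.pow 2).const_mul 3))
  have hXr : X z / r z = 1 - y z * (r z + 2 * s z) -
      t z * (r z ^ 2 + 6 * r z * s z + 3 * s z ^ 2) := by
    rw [div_eq_iff hr0, ← hx]
    unfold px
    ring
  have hS : 1 / s z = 1 - y z * (s z + 2 * r z) - t z * (s z ^ 2 + 6 * r z * s z + 3 * r z ^ 2) := by
    rw [div_eq_iff hs0]
    unfold pb at hb
    linear_combination -hb
  have hL : (1 - X z) / (s z - r z) =
      1 - y z * (s z + r z) - t z * (s z ^ 2 + 4 * r z * s z + r z ^ 2) := by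
    rw [div_eq_iff hrs]
    unfold px at hx
    unfold pb at hb
    linear_combination hx - hb
  have k1 : X z ^ 2 * ((r' * X z - r z * X') / X z ^ 2 / (r z / X z)) =
      X z * (1 - y z * (r z + 2 * s z) - t z * (r z ^ 2 + 6 * r z * s z + 3 * s z ^ 2)) * r' -
        X z * X' := by
    rw [← hXr]
    field_simp
  have k2 : s' / s z =
      (1 - y z * (s z + 2 * r z) - t z * (s z ^ 2 + 6 * r z * s z + 3 * r z ^ 2)) * s' := by
    rw [← hS]
    ring
  have k3 : (1 - X z) ^ 2 * (((s' - r') * (1 - X z) - (s z - r z) * -X') / (1 - X z) ^ 2 /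
        ((s z - r z) / (1 - X z))) =
      (1 - X z) * (1 - y z * (s z + r z) - t z * (s z ^ 2 + 4 * r z * s z + r z ^ 2)) *
        (s' - r') + (1 - X z) * X' := by
    rw [← hL]
    field_simp
    ring
  refine HasDerivAt.congr_deriv ((((((((((hX.pow 2).mul h1).add h2).sub
    ((hX1.pow 2).mul h3)).add (hX.const_mul 2)).sub (hX.mul hs)).sub hr).add
    ((hy.mul (((hX.mul a2).add b2).sub w2)).div_const 2)).add
    ((ht.mul (((hX.mul a3).add b3).sub (w3.const_mul 2))).div_const 3)).div_const 2) ?_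
  simp only [Pi.add_apply, Pi.mul_apply, Pi.pow_apply, Pi.sub_apply, Pi.div_apply]
  rw [k1, k2, k3]
  push_cast
  unfold cf
  unfold dpb at hb'
  unfold dpx at hx' hb'
  unfold px at hx
  unfold pb at hb
  unfold dpw2 dpw3 pw2 pw3
  rw [← hx, ← hx']
  linear_combination
    (-(y z * (r z * (r z + 2 * s z))) / 4
      - t z * (r z * (r z ^ 2 + 6 * r z * s z + 3 * s z ^ 2)) / 3) * hb' -
    ((1 - y z * (s z + 2 * r z) - t z * (s z ^ 2 + 6 * r z * s z + 3 * r z ^ 2)) * s'
      - (1 - y z * (s z + r z) - t z * (s z ^ 2 + 4 * r z * s z + r z ^ 2)) * (s' - r') - r'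
      + (y' * (r z * (r z + 2 * s z)) + y z * (r' * (r z + 2 * s z) + r z * (r' + 2 * s'))) / 2
      + (t' * (r z * (r z ^ 2 + 6 * r z * s z + 3 * s z ^ 2))
        + t z * (r' * (r z ^ 2 + 6 * r z * s z + 3 * s z ^ 2) + r z * (2 * r z * r'
          + 6 * (r' * s z + r z * s') + 6 * s z * s'))) / 3) / 2 * hb +
    (r' - y' * (r z * (r z + 2 * s z)) - y z * (r' * (r z + 2 * s z) + r z * (r' + 2 * s'))
      - t' * (r z * (r z ^ 2 + 6 * r z * s z + 3 * s z ^ 2))
      - t z * (r' * (r z ^ 2 + 6 * r z * s z + 3 * s z ^ 2) + r z * (2 * r z * r' +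
        6 * (r' * s z + r z * s') + 6 * s z * s'))) / 2 * hb

/-- The quadrangulations without parallel edges. -/
theorem hasDerivAt_F2 {X F k y t : ℝ → ℝ} {X' k' y' t' z f w2 w3 D N : ℝ}
    (hX : HasDerivAt X X' z) (hF : HasDerivAt F (f * X' + w2 / 2 * y' + w3 / 3 * t') z)
    (hk : HasDerivAt k k' z) (hy : HasDerivAt y y' z) (ht : HasDerivAt t t' z) (hk0 : k z ≠ 0)
    (h2 : w2 = (X z + X z ^ 2 * (1 + D)) * k z ^ 2)
    (h3 : w3 = (X z + 3 * X z ^ 2 * (1 + D) + X z ^ 3 * N) * k z ^ 3)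
    (h1 : y z * w2 + t z * w3 = X z * (k z - 1)) :
    HasDerivAt (fun w => F w + X w * (k w - 1 - Real.log (k w)) -
        X w * (y w * k w ^ 2 + 2 * (t w * k w ^ 3)) / 2 + 2 * X w * (t w * k w ^ 3) / 3)
      ((f + k z - 1 - Real.log (k z) - (y z * k z ^ 2 + 2 * (t z * k z ^ 3)) / 2 +
          2 * (t z * k z ^ 3) / 3) * X' +
        X z ^ 2 * (1 + D) / 2 * (y' * k z ^ 2 + y z * (2 * k z * k') +
          2 * (t' * k z ^ 3 + t z * (3 * k z ^ 2 * k'))) +
        X z ^ 3 * N / 3 * (t' * k z ^ 3 + t z * (3 * k z ^ 2 * k'))) z := by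
  have hT := ht.mul (hk.pow 3)
  have hY := (hy.mul (hk.pow 2)).add (hT.const_mul 2)
  refine HasDerivAt.congr_deriv (((hF.add (hX.mul ((hk.sub_const 1).sub (hk.log hk0)))).sub
    ((hX.mul hY).div_const 2)).add (((hX.const_mul 2).mul hT).div_const 3)) ?_
  simp only [Pi.add_apply, Pi.mul_apply, Pi.pow_apply, Pi.sub_apply]
  push_cast
  have e : X z * (k' - k' / k z) = k' / k z * (y z * w2 + t z * w3) := by
    rw [h1]
    field_simp
  have e2 : k' / k z * (y z * w2 + t z * w3) =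
      k' * k z * (y z * (X z + X z ^ 2 * (1 + D)) +
        t z * k z * (X z + 3 * X z ^ 2 * (1 + D) + X z ^ 3 * N)) := by
    rw [h2, h3]
    field_simp
  rw [h2, h3]
  linear_combination e + e2

/-- Planar cores. -/
theorem hasDerivAt_Tp {X F2 T Y D K : ℝ → ℝ} {X' T' Y' D' z g N A : ℝ}
    (hX : HasDerivAt X X' z) (hT : HasDerivAt T T' z) (hY : HasDerivAt Y Y' z)
    (hD : HasDerivAt D D' z)
    (hF2 : HasDerivAt F2 (g * X' + X z ^ 2 * (1 + D z) / 2 * Y' + X z ^ 3 * N / 3 * T') z)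
    (hK : ∀ w, K w = (D w / (1 + D w) - Y w - X w * D w ^ 2 / (1 + X w * D w) -
      X w * (1 + D w) ^ 2 * (2 * T w + T w ^ 2)) / 2)
    (hN : N = (1 + D z) ^ 3 * (1 + T z + A)) (hD0 : 1 + D z ≠ 0) (hXD : 1 + X z * D z ≠ 0) :
    HasDerivAt (fun w => (F2 w + X w ^ 2 * (1 + D w) * K w - cE (X w) (D w) (T w)) / 2)
      ((g + X z ^ 2 * (1 + D z) / 2 * (-(D z ^ 2) / (1 + X z * D z) ^ 2 -
          (1 + D z) ^ 2 * (2 * T z + T z ^ 2)) + 2 * X z * (1 + D z) * K z -
          cEx (X z) (D z) (T z)) / 2 * X' +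
        X z ^ 2 / 2 * K z * D' + X z ^ 3 / 6 * (1 + D z) ^ 3 * A * T') z := by
  have h1D : HasDerivAt (fun w => 1 + D w) D' z := by simpa using hD.const_add 1
  have hXD' : HasDerivAt (fun w => X w * D w) (X' * D z + X z * D') z := hX.mul hD
  have h1XD : HasDerivAt (fun w => 1 + X w * D w) (X' * D z + X z * D') z := by
    simpa using hXD'.const_add 1
  have hTT : HasDerivAt (fun w => 2 * T w + T w ^ 2) (2 * T' + 2 * T z * T') z := by
    refine HasDerivAt.congr_deriv ((hT.const_mul 2).add (hT.pow 2)) ?_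
    push_cast
    ring
  have hK' : HasDerivAt K ((D' / (1 + D z) ^ 2 - Y' -
      (X' * D z ^ 2 + X z * (2 * D z + X z * D z ^ 2) * D') / (1 + X z * D z) ^ 2 -
      (X' * (1 + D z) ^ 2 * (2 * T z + T z ^ 2) +
        X z * (2 * (1 + D z) * D') * (2 * T z + T z ^ 2) +
        X z * (1 + D z) ^ 2 * (2 * T' + 2 * T z * T'))) / 2) z := by
    have hfun : K = fun w => (D w / (1 + D w) - Y w - X w * D w ^ 2 / (1 + X w * D w) -
      X w * (1 + D w) ^ 2 * (2 * T w + T w ^ 2)) / 2 := funext hK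
    rw [hfun]
    refine HasDerivAt.congr_deriv (((((hD.div h1D hD0).sub hY).sub
      ((hX.mul (hD.pow 2)).div h1XD hXD)).sub ((hX.mul (h1D.pow 2)).mul hTT)).div_const 2) ?_
    simp only [Pi.add_apply, Pi.mul_apply, Pi.pow_apply, Pi.sub_apply]
    push_cast
    field_simp
    ring
  have hE : HasDerivAt (fun w => cE (X w) (D w) (T w)) (cEx (X z) (D z) (T z) * X' +
      (X z ^ 2 / 2 * (1 / (1 + D z) - 1 - D z) + X z / (1 + X z * D z) / 2 +
        (X z ^ 2 - X z) / (1 + X z * D z) ^ 2 / 2 -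
        X z ^ 3 * (1 + D z) ^ 2 * (2 * T z + T z ^ 2)) * D' -
      X z ^ 3 / 3 * (1 + D z) ^ 3 * (2 * T' + 2 * T z * T')) z := by
    unfold cE cEx
    refine HasDerivAt.congr_deriv ((((((hX.pow 2).div_const 2).mul
      (((h1D.log hD0).sub hD).sub ((hD.pow 2).div_const 2))).add
      ((h1XD.log hXD).div_const 2)).add (((((hX.pow 2).sub hX).mul hD).div h1XD hXD).div_const
        2)).sub (((((hX.pow 3).div_const 3).mul (h1D.pow 3)).mul hTT))) ?_
    simp only [Pi.add_apply, Pi.mul_apply, Pi.pow_apply, Pi.sub_apply]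
    push_cast
    field_simp
    ring
  refine HasDerivAt.congr_deriv (((hF2.add (((hX.pow 2).mul h1D).mul hK')).sub hE).div_const 2) ?_
  simp only [Pi.add_apply, Pi.mul_apply, Pi.pow_apply, Pi.sub_apply]
  push_cast
  rw [hN]
  field_simp
  ring

/-- 3-connected graphs. -/
theorem hasDerivAt_T5 {X Tp T D A : ℝ → ℝ} {X' T' D' A' z p k : ℝ}
    (hX : HasDerivAt X X' z) (hT : HasDerivAt T T' z) (hD : HasDerivAt D D' z)
    (hA : HasDerivAt A A' z)
    (hTp : HasDerivAt Tp (p * X' + X z ^ 2 / 2 * k * D' +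
      X z ^ 3 / 6 * (1 + D z) ^ 3 * A z * T') z)
    (hM : Real.exp (A z) - 1 - A z - T z = 0) :
    HasDerivAt (fun w => Tp w + X w ^ 3 / 6 * (1 + D w) ^ 3 * cG (A w) (T w) +
        X w ^ 8 / 16 * D w ^ 12 - X w ^ 6 / 72 * D w ^ 9)
      ((p + X z ^ 2 / 2 * (1 + D z) ^ 3 * cG (A z) (T z) + X z ^ 7 / 2 * D z ^ 12 -
          X z ^ 5 / 12 * D z ^ 9) * X' +
        X z ^ 2 / 2 * (k + X z * (1 + D z) ^ 2 * cG (A z) (T z) + 3 / 2 * X z ^ 6 * D z ^ 11 -
          X z ^ 4 * D z ^ 8 / 4) * D') z := by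
  have h1D : HasDerivAt (fun w => 1 + D w) D' z := by simpa using hD.const_add 1
  have hG : HasDerivAt (fun w => cG (A w) (T w)) (-(A z * T')) z := by
    unfold cG
    refine HasDerivAt.congr_deriv (((((hA.exp).sub_const 1).sub hA).sub
      ((hA.pow 2).div_const 2)).sub (hA.mul hT)) ?_
    push_cast
    linear_combination A' * hM
  refine HasDerivAt.congr_deriv (((hTp.add ((((hX.pow 3).div_const 6).mul (h1D.pow 3)).mul
    hG)).add (((hX.pow 8).div_const 16).mul (hD.pow 12))).sub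
    (((hX.pow 6).div_const 72).mul (hD.pow 9))) ?_
  simp only [Pi.add_apply, Pi.mul_apply, Pi.pow_apply, Pi.sub_apply]
  push_cast
  ring

/-- 2-connected graphs. -/
theorem hasDerivAt_B {X T5 D : ℝ → ℝ} {X' D' z q T0 v : ℝ}
    (hX : HasDerivAt X X' z) (hD : HasDerivAt D D' z)
    (hT5 : HasDerivAt T5 (q * X' + X z ^ 2 / 2 * T0 * D') z)
    (hNet : Real.log ((1 + D z) / (1 + v)) - X z * D z ^ 2 / (1 + X z * D z) - T0 = 0)
    (hD0 : 1 + D z ≠ 0) (hXD : 1 + X z * D z ≠ 0) (hv : 1 + v ≠ 0) :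
    HasDerivAt (fun w => T5 w - X w * D w / 2 + Real.log (1 + X w * D w) / 2 +
        X w ^ 2 / 2 * (D w + D w ^ 2 / 2 + (1 + D w) * Real.log ((1 + v) / (1 + D w))))
      ((q - D z / 2 + D z / (1 + X z * D z) / 2 +
        X z * (D z + D z ^ 2 / 2 + (1 + D z) * Real.log ((1 + v) / (1 + D z)))) * X') z := by
  have h1D : HasDerivAt (fun w => 1 + D w) D' z := by simpa using hD.const_add 1
  have hXD' : HasDerivAt (fun w => X w * D w) (X' * D z + X z * D') z := hX.mul hD
  have h1XD : HasDerivAt (fun w => 1 + X w * D w) (X' * D z + X z * D') z := by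
    simpa using hXD'.const_add 1
  have hlog : HasDerivAt (fun w => Real.log ((1 + v) / (1 + D w))) (-(D' / (1 + D z))) z := by
    refine HasDerivAt.congr_deriv (((hasDerivAt_const z (1 + v)).div h1D hD0).log
      (div_ne_zero hv hD0)) ?_
    simp only [Pi.div_apply]
    field_simp
    ring
  have e : Real.log ((1 + v) / (1 + D z)) = -Real.log ((1 + D z) / (1 + v)) := by
    rw [← Real.log_inv, inv_div]
  have e2 : Real.log ((1 + v) / (1 + D z)) = -(X z * D z ^ 2 / (1 + X z * D z)) - T0 := by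
    rw [e]
    linear_combination -hNet
  refine HasDerivAt.congr_deriv (((hT5.sub (hXD'.div_const 2)).add
    ((h1XD.log hXD).div_const 2)).add (((hX.pow 2).div_const 2).mul
    ((hD.add ((hD.pow 2).div_const 2)).add (h1D.mul hlog)))) ?_
  simp only [Pi.add_apply, Pi.mul_apply, Pi.pow_apply, Pi.sub_apply]
  push_cast
  rw [e2]
  field_simp
  ring

end DBAux

open DBAux

/-- The partial derivative of the generating function of the 3-connected graphs with respect to
`x`. -/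
def pT5x (r s y t : ℝ) : ℝ :=
  (cf (px r s y t) r s y t + pkap r s y t - 1 - Real.log (pkap r s y t) - pY r s y t / 2 +
      2 * pT r s y t / 3 +
      px r s y t ^ 2 * (1 + pD r s y t) / 2 * (-(pD r s y t ^ 2) / (1 + px r s y t * pD r s y t) ^ 2
        - (1 + pD r s y t) ^ 2 * (2 * pT r s y t + pT r s y t ^ 2)) +
      2 * px r s y t * (1 + pD r s y t) * pK r s y t - cEx (px r s y t) (pD r s y t) (pT r s y t)) / 2
    + px r s y t ^ 2 / 2 * (1 + pD r s y t) ^ 3 * cG (pA r s y t) (pT r s y t) +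
    px r s y t ^ 7 / 2 * pD r s y t ^ 12 - px r s y t ^ 5 / 12 * pD r s y t ^ 9

/-- The differential of `T5` along every path with `pb = 1`. -/
theorem hasDerivAt_T5_gen {D' : ℝ} (hr : HasDerivAt r r' z) (hs : HasDerivAt s s' z)
    (hy : HasDerivAt y y' z) (ht : HasDerivAt t t' z)
    (hb : ∀ᶠ w in nhds z, pb (r w) (s w) (y w) (t w) = 1)
    (hM : pM (r z) (s z) (y z) (t z) = 0)
    (hr0 : r z ≠ 0) (hs0 : s z ≠ 0) (hrs : s z ≠ r z) (hx0 : px (r z) (s z) (y z) (t z) ≠ 0)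
    (hx1 : px (r z) (s z) (y z) (t z) ≠ 1) (hk0 : pkap (r z) (s z) (y z) (t z) ≠ 0)
    (hD0 : 1 + pD (r z) (s z) (y z) (t z) ≠ 0)
    (hXD : 1 + px (r z) (s z) (y z) (t z) * pD (r z) (s z) (y z) (t z) ≠ 0)
    (hD' : HasDerivAt (fun w => pD (r w) (s w) (y w) (t w)) D' z) :
    HasDerivAt (fun w => pT5 (r w) (s w) (y w) (t w))
      (pT5x (r z) (s z) (y z) (t z) * dpx (r z) (s z) (y z) (t z) r' s' y' t' +
        px (r z) (s z) (y z) (t z) ^ 2 / 2 * pT0 (r z) (s z) (y z) (t z) * D') z := by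
  have hrd := hr.differentiableAt
  have hsd := hs.differentiableAt
  have hyd := hy.differentiableAt
  have htd := ht.differentiableAt
  have hX := hasDerivAt_px hr hs hy ht
  have hbz : pb (r z) (s z) (y z) (t z) = 1 := hb.self_of_nhds
  have hb' : dpb (r z) (s z) (y z) (t z) r' s' y' t' = 0 :=
    (hasDerivAt_pb hr hs hy ht).unique ((hasDerivAt_const z (1 : ℝ)).congr_of_eventuallyEq hb)
  have hF := DBAux.hasDerivAt_cF hr hs hy ht hX rfl hbz rfl hb' hr0 hs0 (sub_ne_zero.2 hrs) hx0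
    (sub_ne_zero.2 (Ne.symm hx1))
  have hkd : DifferentiableAt ℝ (fun w => pkap (r w) (s w) (y w) (t w)) z := by
    unfold pkap
    refine DifferentiableAt.div ?_ hX.differentiableAt hx0
    unfold pw1
    fun_prop
  have hk := hkd.hasDerivAt
  set k' := deriv (fun w => pkap (r w) (s w) (y w) (t w)) z with hk'
  have hT : HasDerivAt (fun w => pT (r w) (s w) (y w) (t w))
      (t' * pkap (r z) (s z) (y z) (t z) ^ 3 +
        t z * (3 * pkap (r z) (s z) (y z) (t z) ^ 2 * k')) z := by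
    unfold pT
    refine HasDerivAt.congr_deriv (ht.mul (hk.pow 3)) ?_
    push_cast
    ring
  have hY : HasDerivAt (fun w => pY (r w) (s w) (y w) (t w))
      (y' * pkap (r z) (s z) (y z) (t z) ^ 2 +
        y z * (2 * pkap (r z) (s z) (y z) (t z) * k') +
        2 * (t' * pkap (r z) (s z) (y z) (t z) ^ 3 +
        t z * (3 * pkap (r z) (s z) (y z) (t z) ^ 2 * k'))) z := by
    unfold pY
    refine HasDerivAt.congr_deriv ((hy.mul (hk.pow 2)).add (hT.const_mul 2)) ?_
    simp only [Pi.pow_apply]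
    push_cast
    ring
  have h2 : pw2 (r z) (s z) (y z) (t z) = (px (r z) (s z) (y z) (t z) +
      px (r z) (s z) (y z) (t z) ^ 2 * (1 + pD (r z) (s z) (y z) (t z))) *
        pkap (r z) (s z) (y z) (t z) ^ 2 := by
    unfold pD
    field_simp
    ring
  have h3 : pw3 (r z) (s z) (y z) (t z) = (px (r z) (s z) (y z) (t z) +
      3 * px (r z) (s z) (y z) (t z) ^ 2 * (1 + pD (r z) (s z) (y z) (t z)) +
      px (r z) (s z) (y z) (t z) ^ 3 * pN (r z) (s z) (y z) (t z)) *
        pkap (r z) (s z) (y z) (t z) ^ 3 := by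
    unfold pN
    field_simp
    ring
  have h1 : y z * pw2 (r z) (s z) (y z) (t z) + t z * pw3 (r z) (s z) (y z) (t z) =
      px (r z) (s z) (y z) (t z) * (pkap (r z) (s z) (y z) (t z) - 1) := by
    have e := pw1_eq (r z) (s z) (y z) (t z)
    rw [hbz] at e
    have e2 : px (r z) (s z) (y z) (t z) * pkap (r z) (s z) (y z) (t z) =
        pw1 (r z) (s z) (y z) (t z) := by
      unfold pkap
      field_simp
    linear_combination -e - e2
  have hN : pN (r z) (s z) (y z) (t z) = (1 + pD (r z) (s z) (y z) (t z)) ^ 3 *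
      (1 + pT (r z) (s z) (y z) (t z) + pA (r z) (s z) (y z) (t z)) := by
    unfold pA
    field_simp
    ring
  have hNd : DifferentiableAt ℝ (fun w => pN (r w) (s w) (y w) (t w)) z := by
    unfold pN
    refine DifferentiableAt.div ?_ (hX.differentiableAt.pow 3) (pow_ne_zero 3 hx0)
    refine DifferentiableAt.sub (DifferentiableAt.sub ?_ ?_) hX.differentiableAt
    · refine DifferentiableAt.div ?_ (hkd.pow 3) (pow_ne_zero 3 hk0)
      unfold pw3
      fun_prop
    · exact ((hX.differentiableAt.pow 2).const_mul 3).mul (hD'.differentiableAt.const_add 1)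
  have hAd : DifferentiableAt ℝ (fun w => pA (r w) (s w) (y w) (t w)) z := by
    unfold pA
    exact ((hNd.div ((hD'.differentiableAt.const_add 1).pow 3) (pow_ne_zero 3 hD0)).sub_const
      1).sub hT.differentiableAt
  have hF2 := DBAux.hasDerivAt_F2 (D := pD (r z) (s z) (y z) (t z))
    (N := pN (r z) (s z) (y z) (t z)) hX hF hk hy ht hk0 h2 h3 h1
  have hTp := DBAux.hasDerivAt_Tp (K := fun w => pK (r w) (s w) (y w) (t w))
    (A := pA (r z) (s z) (y z) (t z)) hX hT hY hD' hF2 (fun w => rfl) hN hD0 hXD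
  have hT5 := DBAux.hasDerivAt_T5 hX hT hD' hAd.hasDerivAt hTp hM
  refine HasDerivAt.congr_deriv hT5 ?_
  unfold pT5x pT0 cT0 pY pT
  ring

/-- The differential of `B` along every path with `pb = 1`. -/
theorem hasDerivAt_B_gen {v D' : ℝ} (hr : HasDerivAt r r' z) (hs : HasDerivAt s s' z)
    (hy : HasDerivAt y y' z) (ht : HasDerivAt t t' z)
    (hb : ∀ᶠ w in nhds z, pb (r w) (s w) (y w) (t w) = 1)
    (hM : pM (r z) (s z) (y z) (t z) = 0) (hNet : pNet v (r z) (s z) (y z) (t z) = 0)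
    (hr0 : r z ≠ 0) (hs0 : s z ≠ 0) (hrs : s z ≠ r z) (hx0 : px (r z) (s z) (y z) (t z) ≠ 0)
    (hx1 : px (r z) (s z) (y z) (t z) ≠ 1) (hk0 : pkap (r z) (s z) (y z) (t z) ≠ 0)
    (hD0 : 1 + pD (r z) (s z) (y z) (t z) ≠ 0)
    (hXD : 1 + px (r z) (s z) (y z) (t z) * pD (r z) (s z) (y z) (t z) ≠ 0) (hv : 1 + v ≠ 0)
    (hD' : HasDerivAt (fun w => pD (r w) (s w) (y w) (t w)) D' z) :
    HasDerivAt (fun w => pB v (r w) (s w) (y w) (t w))
      (pBx v (r z) (s z) (y z) (t z) * dpx (r z) (s z) (y z) (t z) r' s' y' t') z := by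
  have hT5 := hasDerivAt_T5_gen hr hs hy ht hb hM hr0 hs0 hrs hx0 hx1 hk0 hD0 hXD hD'
  have hB := DBAux.hasDerivAt_B (v := v) (hasDerivAt_px hr hs hy ht) hD' hT5 hNet hD0 hXD hv
  refine HasDerivAt.congr_deriv hB ?_
  unfold pT5x pBx cBx
  ring

/-- The derivative of `B` along a path that is parametrised by `x`. -/
theorem hasDerivAt_pB {v x : ℝ} (hr : HasDerivAt r r' x) (hs : HasDerivAt s s' x)
    (hy : HasDerivAt y y' x) (ht : HasDerivAt t t' x)
    (hx : ∀ᶠ w in nhds x, px (r w) (s w) (y w) (t w) = w)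
    (hb : ∀ᶠ w in nhds x, pb (r w) (s w) (y w) (t w) = 1)
    (hM : pM (r x) (s x) (y x) (t x) = 0) (hNet : pNet v (r x) (s x) (y x) (t x) = 0)
    (hr0 : r x ≠ 0) (hs0 : s x ≠ 0) (hrs : s x ≠ r x) (hx0 : x ≠ 0)
    (hx1 : x ≠ 1) (hk0 : pkap (r x) (s x) (y x) (t x) ≠ 0)
    (hD0 : 1 + pD (r x) (s x) (y x) (t x) ≠ 0)
    (hXD : 1 + x * pD (r x) (s x) (y x) (t x) ≠ 0) (hv : 1 + v ≠ 0) :
    HasDerivAt (fun w => pB v (r w) (s w) (y w) (t w))
      (pBx v (r x) (s x) (y x) (t x)) x := by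
  have hrd := hr.differentiableAt
  have hsd := hs.differentiableAt
  have hyd := hy.differentiableAt
  have htd := ht.differentiableAt
  have hX := hasDerivAt_px hr hs hy ht
  have hxx : px (r x) (s x) (y x) (t x) = x := hx.self_of_nhds
  have hX1 : dpx (r x) (s x) (y x) (t x) r' s' y' t' = 1 :=
    hX.unique ((hasDerivAt_id x).congr_of_eventuallyEq hx)
  have hx0' : px (r x) (s x) (y x) (t x) ≠ 0 := by rwa [hxx]
  have hkd : DifferentiableAt ℝ (fun w => pkap (r w) (s w) (y w) (t w)) x := by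
    unfold pkap
    refine DifferentiableAt.div ?_ hX.differentiableAt hx0'
    unfold pw1
    fun_prop
  have hDd : DifferentiableAt ℝ (fun w => pD (r w) (s w) (y w) (t w)) x := by
    unfold pD
    refine DifferentiableAt.sub_const (DifferentiableAt.div (DifferentiableAt.sub
      (DifferentiableAt.div ?_ (hkd.pow 2) (pow_ne_zero 2 hk0)) hX.differentiableAt)
      (hX.differentiableAt.pow 2) (pow_ne_zero 2 hx0')) 1
    unfold pw2
    fun_prop
  have h := hasDerivAt_B_gen (v := v) hr hs hy ht hb hM hNet hr0 hs0 hrs hx0'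
    (by rwa [hxx]) hk0 hD0 (by rwa [hxx]) hv hDd.hasDerivAt
  rwa [hX1, mul_one] at h

end

end K5C
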