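import Pool.Agent.Lib.K5C.Defs

/-!
# K5C.DF: the derivative of the free energy along a path with `px = x`, `pb = 1`
-/

namespace K5C

open K5N

noncomputable section

theorem pw1_eq (r s y t : ℝ) : pw1 r s y t = px r s y t * pb r s y t + y * pw2 r s y t +
    t * pw3 r s y t := by
  unfold pw1 px pb pw2 pw3
  ring

/-- The differential of `px`. -/
def dpx (r s y t r' s' y' t' : ℝ) : ℝ :=
  r' - y' * (r * (r + 2 * s)) - y * (r' * (r + 2 * s) + r * (r' + 2 * s'))
    - t' * (r * (r ^ 2 + 6 * r * s + 3 * s ^ 2))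
    - t * (r' * (r ^ 2 + 6 * r * s + 3 * s ^ 2) + r * (2 * r * r' + 6 * (r' * s + r * s')
      + 6 * s * s'))

/-- The differential of `pb`. -/
def dpb (r s y t r' s' y' t' : ℝ) : ℝ := dpx s r y t s' r' y' t'

/-- The differential of `pw2`. -/
def dpw2 (r s y t r' s' y' t' : ℝ) : ℝ :=
  (r' * s + r * s') * ((r + s) - y * (2 * (r + s) ^ 2 + r * s)
      - 3 * t * (r + s) * ((r + s) ^ 2 + 2 * (r * s)))
    + r * s * ((r' + s') - y' * (2 * (r + s) ^ 2 + r * s)
      - y * (4 * (r + s) * (r' + s') + (r' * s + r * s'))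
      - 3 * t' * (r + s) * ((r + s) ^ 2 + 2 * (r * s))
      - 3 * t * ((r' + s') * ((r + s) ^ 2 + 2 * (r * s))
        + (r + s) * (2 * (r + s) * (r' + s') + 2 * (r' * s + r * s'))))

/-- The differential of `pw3`. -/
def dpw3 (r s y t r' s' y' t' : ℝ) : ℝ :=
  (r' * s + r * s') * (((r + s) ^ 2 + r * s) - 2 * y * (r + s) * ((r + s) ^ 2 + 2 * (r * s))
      - t * (3 * (r + s) ^ 4 + 12 * (r + s) ^ 2 * (r * s) + 4 * (r * s) ^ 2))
    + r * s * ((2 * (r + s) * (r' + s') + (r' * s + r * s'))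
      - 2 * y' * (r + s) * ((r + s) ^ 2 + 2 * (r * s))
      - 2 * y * ((r' + s') * ((r + s) ^ 2 + 2 * (r * s))
        + (r + s) * (2 * (r + s) * (r' + s') + 2 * (r' * s + r * s')))
      - t' * (3 * (r + s) ^ 4 + 12 * (r + s) ^ 2 * (r * s) + 4 * (r * s) ^ 2)
      - t * (12 * (r + s) ^ 3 * (r' + s')
        + 12 * (2 * (r + s) * (r' + s') * (r * s) + (r + s) ^ 2 * (r' * s + r * s'))
        + 8 * (r * s) * (r' * s + r * s')))

variable {r s y t : ℝ → ℝ} {r' s' y' t' z : ℝ}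

theorem hasDerivAt_px (hr : HasDerivAt r r' z) (hs : HasDerivAt s s' z) (hy : HasDerivAt y y' z)
    (ht : HasDerivAt t t' z) : HasDerivAt (fun w => px (r w) (s w) (y w) (t w))
      (dpx (r z) (s z) (y z) (t z) r' s' y' t') z := by
  unfold px dpx
  refine HasDerivAt.congr_deriv ((hr.sub ((hy.mul hr).mul (hr.add (hs.const_mul 2)))).sub
    ((ht.mul hr).mul (((hr.pow 2).add ((hr.const_mul 6).mul hs)).add ((hs.pow 2).const_mul 3)))) ?_
  simp only [Pi.add_apply, Pi.mul_apply, Pi.pow_apply, Pi.sub_apply]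
  push_cast
  ring

theorem hasDerivAt_pb (hr : HasDerivAt r r' z) (hs : HasDerivAt s s' z) (hy : HasDerivAt y y' z)
    (ht : HasDerivAt t t' z) : HasDerivAt (fun w => pb (r w) (s w) (y w) (t w))
      (dpb (r z) (s z) (y z) (t z) r' s' y' t') z := by
  unfold pb dpb dpx
  refine HasDerivAt.congr_deriv ((hs.sub ((hy.mul hs).mul (hs.add (hr.const_mul 2)))).sub
    ((ht.mul hs).mul (((hs.pow 2).add ((hr.const_mul 6).mul hs)).add ((hr.pow 2).const_mul 3)))) ?_
  simp only [Pi.add_apply, Pi.mul_apply, Pi.pow_apply, Pi.sub_apply]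
  push_cast
  ring

theorem hasDerivAt_pw2 (hr : HasDerivAt r r' z) (hs : HasDerivAt s s' z) (hy : HasDerivAt y y' z)
    (ht : HasDerivAt t t' z) : HasDerivAt (fun w => pw2 (r w) (s w) (y w) (t w))
      (dpw2 (r z) (s z) (y z) (t z) r' s' y' t') z := by
  unfold pw2 dpw2
  have hq := hr.mul hs
  have hp := hr.add hs
  refine HasDerivAt.congr_deriv (hq.mul ((hp.sub (hy.mul (((hp.pow 2).const_mul 2).add hq))).sub
    (((ht.const_mul 3).mul hp).mul ((hp.pow 2).add (hq.const_mul 2))))) ?_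
  simp only [Pi.add_apply, Pi.mul_apply, Pi.pow_apply, Pi.sub_apply]
  push_cast
  ring

theorem hasDerivAt_pw3 (hr : HasDerivAt r r' z) (hs : HasDerivAt s s' z) (hy : HasDerivAt y y' z)
    (ht : HasDerivAt t t' z) : HasDerivAt (fun w => pw3 (r w) (s w) (y w) (t w))
      (dpw3 (r z) (s z) (y z) (t z) r' s' y' t') z := by
  unfold pw3 dpw3
  have hq := hr.mul hs
  have hp := hr.add hs
  refine HasDerivAt.congr_deriv (hq.mul ((((hp.pow 2).add hq).sub (((hy.const_mul 2).mul hp).mul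
    ((hp.pow 2).add (hq.const_mul 2)))).sub (ht.mul ((((hp.pow 4).const_mul 3).add
      (((hp.pow 2).const_mul 12).mul hq)).add ((hq.pow 2).const_mul 4))))) ?_
  simp only [Pi.add_apply, Pi.mul_apply, Pi.pow_apply, Pi.sub_apply]
  push_cast
  ring

theorem hasDerivAt_cF {x : ℝ} (hr : HasDerivAt r r' z) (hs : HasDerivAt s s' z)
    (hy : HasDerivAt y y' z) (ht : HasDerivAt t t' z)
    (hx : px (r z) (s z) (y z) (t z) = x) (hb : pb (r z) (s z) (y z) (t z) = 1)
    (hx' : dpx (r z) (s z) (y z) (t z) r' s' y' t' = 0)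
    (hb' : dpb (r z) (s z) (y z) (t z) r' s' y' t' = 0)
    (hr0 : r z ≠ 0) (hs0 : s z ≠ 0) (hrs : s z - r z ≠ 0) (hx0 : x ≠ 0) (hx1 : 1 - x ≠ 0) :
    HasDerivAt (fun w => cF x (r w) (s w) (y w) (t w))
      (pw2 (r z) (s z) (y z) (t z) / 2 * y' + pw3 (r z) (s z) (y z) (t z) / 3 * t') z := by
  have h1 := (hr.div_const x).log (div_ne_zero hr0 hx0)
  have h2 := hs.log hs0
  have h3 := ((hs.sub hr).div_const (1 - x)).log (div_ne_zero hrs hx1)
  have w2 := hasDerivAt_pw2 hr hs hy ht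
  have w3 := hasDerivAt_pw3 hr hs hy ht
  have a2 := hs.mul (hs.add (hr.const_mul 2))
  have b2 := hr.mul (hr.add (hs.const_mul 2))
  have a3 := hs.mul (((hs.pow 2).add ((hr.const_mul 6).mul hs)).add ((hr.pow 2).const_mul 3))
  have b3 := hr.mul (((hr.pow 2).add ((hr.const_mul 6).mul hs)).add ((hs.pow 2).const_mul 3))
  have hX : x / r z = 1 - y z * (r z + 2 * s z) - t z * (r z ^ 2 + 6 * r z * s z + 3 * s z ^ 2) := by
    rw [div_eq_iff hr0, ← hx]
    unfold px
    ring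
  have hS : 1 / s z = 1 - y z * (s z + 2 * r z) - t z * (s z ^ 2 + 6 * r z * s z + 3 * r z ^ 2) := by
    rw [div_eq_iff hs0]
    unfold pb at hb
    linear_combination -hb
  have hL : (1 - x) / (s z - r z) =
      1 - y z * (s z + r z) - t z * (s z ^ 2 + 4 * r z * s z + r z ^ 2) := by
    rw [div_eq_iff hrs]
    unfold px at hx
    unfold pb at hb
    linear_combination hx - hb
  have k1 : x ^ 2 * (r' / x / (r z / x)) =
      x * (1 - y z * (r z + 2 * s z) - t z * (r z ^ 2 + 6 * r z * s z + 3 * s z ^ 2)) * r' := by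
    rw [← hX]
    field_simp
  have k2 : s' / s z =
      (1 - y z * (s z + 2 * r z) - t z * (s z ^ 2 + 6 * r z * s z + 3 * r z ^ 2)) * s' := by
    rw [← hS]
    ring
  have k3 : (1 - x) ^ 2 * ((s' - r') / (1 - x) / ((s z - r z) / (1 - x))) =
      (1 - x) * (1 - y z * (s z + r z) - t z * (s z ^ 2 + 4 * r z * s z + r z ^ 2)) *
        (s' - r') := by
    rw [← hL]
    field_simp
  refine HasDerivAt.congr_deriv (((((((((h1.const_mul (x ^ 2)).add h2).sub
    (h3.const_mul ((1 - x) ^ 2))).add_const (2 * x)).sub (hs.const_mul x)).sub hr).add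
    ((hy.mul (((a2.const_mul x).add b2).sub w2)).div_const 2)).add
    ((ht.mul (((a3.const_mul x).add b3).sub (w3.const_mul 2))).div_const 3)).div_const 2) ?_
  simp only [Pi.add_apply, Pi.mul_apply, Pi.pow_apply, Pi.sub_apply]
  rw [k1, k2, k3]
  push_cast
  subst hx
  unfold dpb at hb'
  unfold dpx at hx' hb'
  unfold px
  unfold pb at hb
  unfold dpw2 dpw3 pw2 pw3
  linear_combination (-(y z * (s z * (s z + 2 * r z))) / 4
      - t z * (s z * (s z ^ 2 + 6 * r z * s z + 3 * r z ^ 2)) / 3) * hx' +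
    (-(y z * (r z * (r z + 2 * s z))) / 4
      - t z * (r z * (r z ^ 2 + 6 * r z * s z + 3 * s z ^ 2)) / 3) * hb' -
    ((1 - y z * (s z + 2 * r z) - t z * (s z ^ 2 + 6 * r z * s z + 3 * r z ^ 2)) * s'
      - (1 - y z * (s z + r z) - t z * (s z ^ 2 + 4 * r z * s z + r z ^ 2)) * (s' - r') - r'
      + (y' * (r z * (r z + 2 * s z)) + y z * (r' * (r z + 2 * s z) + r z * (r' + 2 * s'))) / 2
      + (t' * (r z * (r z ^ 2 + 6 * r z * s z + 3 * s z ^ 2))
        + t z * (r' * (r z ^ 2 + 6 * r z * s z + 3 * s z ^ 2) + r z * (2 * r z * r'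
          + 6 * (r' * s z + r z * s') + 6 * s z * s'))) / 3) / 2 * hb

end

end K5C
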