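import Pool.Agent.Lib.K5C.DF

/-!
# K5C.DT5: the derivative of the unrooted 3-connected graphs at fixed `x`

`hasDerivAt_T5`: along a differentiable path `(r, s, y, t)` with `px = x`, `pb = 1` and the equation
of the marks, the derivative of `pT5` is `(x^2 / 2) * pT0 * (pD)'`.
-/

namespace K5C

open K5N

noncomputable section

/-! ### The parameters with `x` kept fixed -/

def qkap (x r s y t : ℝ) : ℝ := pw1 r s y t / x
def qT (x r s y t : ℝ) : ℝ := t * qkap x r s y t ^ 3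
def qY (x r s y t : ℝ) : ℝ := y * qkap x r s y t ^ 2 + 2 * qT x r s y t
def qD (x r s y t : ℝ) : ℝ := (pw2 r s y t / qkap x r s y t ^ 2 - x) / x ^ 2 - 1
def qN (x r s y t : ℝ) : ℝ :=
  (pw3 r s y t / qkap x r s y t ^ 3 - 3 * x ^ 2 * (1 + qD x r s y t) - x) / x ^ 3
def qK (x r s y t : ℝ) : ℝ :=
  (qD x r s y t / (1 + qD x r s y t) - qY x r s y t -
    x * qD x r s y t ^ 2 / (1 + x * qD x r s y t) -
    x * (1 + qD x r s y t) ^ 2 * (2 * qT x r s y t + qT x r s y t ^ 2)) / 2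
def qA (x r s y t : ℝ) : ℝ := qN x r s y t / (1 + qD x r s y t) ^ 3 - 1 - qT x r s y t

theorem pkap_eq_q (r s y t : ℝ) : pkap r s y t = qkap (px r s y t) r s y t := rfl
theorem pT_eq_q (r s y t : ℝ) : pT r s y t = qT (px r s y t) r s y t := rfl
theorem pY_eq_q (r s y t : ℝ) : pY r s y t = qY (px r s y t) r s y t := rfl
theorem pD_eq_q (r s y t : ℝ) : pD r s y t = qD (px r s y t) r s y t := rfl
theorem pN_eq_q (r s y t : ℝ) : pN r s y t = qN (px r s y t) r s y t := rfl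
theorem pK_eq_q (r s y t : ℝ) : pK r s y t = qK (px r s y t) r s y t := rfl
theorem pA_eq_q (r s y t : ℝ) : pA r s y t = qA (px r s y t) r s y t := rfl

/-! ### The algebra -/

/-- The step from the free energy to the map networks. -/
theorem alg1 {x κ D N w2 w3 y t y' t' κ' T' Y' : ℝ} (hκ : κ ≠ 0)
    (h2 : w2 = κ ^ 2 * (x + x ^ 2 * (1 + D)))
    (h3 : w3 = κ ^ 3 * (x + 3 * x ^ 2 * (1 + D) + x ^ 3 * N))
    (h1 : y * w2 + t * w3 = x * (κ - 1)) (hT' : T' = t' * κ ^ 3 + 3 * t * κ ^ 2 * κ')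
    (hY' : Y' = y' * κ ^ 2 + 2 * y * κ * κ' + 2 * T') :
    w2 / 2 * y' + w3 / 3 * t' + x * (κ' - κ' / κ) - x * Y' / 2 + 2 * x * T' / 3 =
      x ^ 2 * (1 + D) / 2 * Y' + x ^ 3 * N / 3 * T' := by
  have e : x * (κ' - κ' / κ) = (y * w2 + t * w3) * (κ' / κ) := by
    rw [h1]
    field_simp
  rw [e, hY', hT', h2, h3]
  field_simp
  ring

/-- The step from the map networks to the cores. -/
theorem alg3 {x D N T A K D' T' Y' K' : ℝ} (hD : 1 + D ≠ 0) (hxD : 1 + x * D ≠ 0)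
    (hN : N = (1 + D) ^ 3 * (1 + T + A))
    (hK' : K' = (D' / (1 + D) ^ 2 - Y' - (2 * x * D * D' * (1 + x * D) - x * D ^ 2 * (x * D')) /
      (1 + x * D) ^ 2 - (2 * x * (1 + D) * D' * (2 * T + T ^ 2)
      + x * (1 + D) ^ 2 * (2 * T' + 2 * T * T'))) / 2) :
    x ^ 2 * (1 + D) / 2 * Y' + x ^ 3 * N / 3 * T' + x ^ 2 * (D' * K + (1 + D) * K') -
      (x ^ 2 / 2 * (D' / (1 + D) - D' - D * D') + x * D' / (1 + x * D) / 2
        + (x ^ 2 - x) * D' / (1 + x * D) ^ 2 / 2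
        - (x ^ 3 * (1 + D) ^ 2 * D' * (2 * T + T ^ 2)
          + x ^ 3 / 3 * (1 + D) ^ 3 * (2 * T' + 2 * T * T'))) =
      x ^ 2 * K * D' + x ^ 3 / 3 * (1 + D) ^ 3 * A * T' := by
  rw [hK', hN]
  field_simp
  ring

/-- The step from the cores to the graphs. -/
theorem alg4 {x D T A K G D' T' A' G' P' : ℝ} (hM : Real.exp A - 1 - A - T = 0)
    (hG' : G' = Real.exp A * A' - A' - A * A' - (A' * T + A * T'))
    (hP : 2 * P' = x ^ 2 * K * D' + x ^ 3 / 3 * (1 + D) ^ 3 * A * T') :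
    P' + x ^ 3 / 6 * (3 * (1 + D) ^ 2 * D' * G + (1 + D) ^ 3 * G') + x ^ 8 / 16 * (12 * D ^ 11 * D')
      - x ^ 6 / 72 * (9 * D ^ 8 * D')
      = x ^ 2 / 2 * (K + x * (1 + D) ^ 2 * G + 3 / 2 * x ^ 6 * D ^ 11 - x ^ 4 * D ^ 8 / 4) * D' := by
  have hG2 : G' = -A * T' := by
    rw [hG']
    linear_combination A' * hM
  rw [hG2]
  linear_combination hP / 2

/-! ### The derivative -/

/-- The derivative at fixed `x` of the unrooted 3-connected graphs, `x`-version. -/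
theorem hasDerivAt_q {r s y t : ℝ → ℝ} {r' s' y' t' z x D' : ℝ} (hr : HasDerivAt r r' z)
    (hs : HasDerivAt s s' z) (hy : HasDerivAt y y' z) (ht : HasDerivAt t t' z)
    (hx : px (r z) (s z) (y z) (t z) = x) (hb : pb (r z) (s z) (y z) (t z) = 1)
    (hx' : dpx (r z) (s z) (y z) (t z) r' s' y' t' = 0)
    (hb' : dpb (r z) (s z) (y z) (t z) r' s' y' t' = 0)
    (hr0 : r z ≠ 0) (hs0 : s z ≠ 0) (hrs : s z - r z ≠ 0) (hx0 : x ≠ 0) (hx1 : 1 - x ≠ 0)
    (hκ0 : qkap x (r z) (s z) (y z) (t z) ≠ 0)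
    (hD0 : 1 + qD x (r z) (s z) (y z) (t z) ≠ 0)
    (hxD0 : 1 + x * qD x (r z) (s z) (y z) (t z) ≠ 0)
    (hM : Real.exp (qA x (r z) (s z) (y z) (t z)) - 1 - qA x (r z) (s z) (y z) (t z)
      - qT x (r z) (s z) (y z) (t z) = 0)
    (hD' : HasDerivAt (fun w => qD x (r w) (s w) (y w) (t w)) D' z) :
    HasDerivAt (fun w => cT5 x (cF x (r w) (s w) (y w) (t w)) (qkap x (r w) (s w) (y w) (t w))
      (qY x (r w) (s w) (y w) (t w)) (qT x (r w) (s w) (y w) (t w)) (qD x (r w) (s w) (y w) (t w))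
      (qK x (r w) (s w) (y w) (t w)) (qA x (r w) (s w) (y w) (t w)))
      (x ^ 2 / 2 * cT0 x (qT x (r z) (s z) (y z) (t z)) (qD x (r z) (s z) (y z) (t z))
        (qK x (r z) (s z) (y z) (t z)) (qA x (r z) (s z) (y z) (t z)) * D') z := by
  have hF := hasDerivAt_cF hr hs hy ht hx hb hx' hb' hr0 hs0 hrs hx0 hx1
  have w2 := hasDerivAt_pw2 hr hs hy ht
  have w3 := hasDerivAt_pw3 hr hs hy ht
  -- `κ`
  obtain ⟨κ', hκ⟩ : ∃ κ', HasDerivAt (fun w => qkap x (r w) (s w) (y w) (t w)) κ' z := by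
    have hpx := hasDerivAt_px hr hs hy ht
    have hpb := hasDerivAt_pb hr hs hy ht
    have h1 := (((hpx.mul hpb).add (hy.mul w2)).add (ht.mul w3)).congr_of_eventuallyEq
      (f₁ := fun w => pw1 (r w) (s w) (y w) (t w)) (Filter.Eventually.of_forall fun w =>
        pw1_eq (r w) (s w) (y w) (t w))
    exact ⟨_, h1.div_const x⟩
  set κ := fun w => qkap x (r w) (s w) (y w) (t w) with hκdef
  set T := fun w => qT x (r w) (s w) (y w) (t w) with hTdef
  set Y := fun w => qY x (r w) (s w) (y w) (t w) with hYdef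
  set D := fun w => qD x (r w) (s w) (y w) (t w) with hDdef
  set N := fun w => qN x (r w) (s w) (y w) (t w) with hNdef
  set K := fun w => qK x (r w) (s w) (y w) (t w) with hKdef
  set A := fun w => qA x (r w) (s w) (y w) (t w) with hAdef
  have hκz : κ z ≠ 0 := hκ0
  have hDz : 1 + D z ≠ 0 := hD0
  have hxDz : 1 + x * D z ≠ 0 := hxD0
  have hT : HasDerivAt T (t' * κ z ^ 3 + 3 * t z * κ z ^ 2 * κ') z := by
    refine (ht.mul (hκ.pow 3)).congr_deriv ?_
    simp only [Pi.pow_apply]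
    push_cast
    ring
  have hY : HasDerivAt Y (y' * κ z ^ 2 + 2 * y z * κ z * κ' +
      2 * (t' * κ z ^ 3 + 3 * t z * κ z ^ 2 * κ')) z := by
    refine ((hy.mul (hκ.pow 2)).add (hT.const_mul 2)).congr_deriv ?_
    simp only [Pi.pow_apply]
    push_cast
    ring
  set T' := t' * κ z ^ 3 + 3 * t z * κ z ^ 2 * κ' with hT'def
  set Y' := y' * κ z ^ 2 + 2 * y z * κ z * κ' + 2 * T' with hY'def
  -- `N`
  obtain ⟨N', hN⟩ : ∃ N', HasDerivAt N N' z :=
    ⟨_, ((((w3.div (hκ.pow 3) (pow_ne_zero 3 hκz)).sub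
      ((hD'.const_add 1).const_mul (3 * x ^ 2))).sub_const x).div_const (x ^ 3))⟩
  -- `K`
  have hK : HasDerivAt K ((D' / (1 + D z) ^ 2 - Y' - (2 * x * D z * D' * (1 + x * D z) -
      x * D z ^ 2 * (x * D')) / (1 + x * D z) ^ 2 - (2 * x * (1 + D z) * D' * (2 * T z + T z ^ 2)
      + x * (1 + D z) ^ 2 * (2 * T' + 2 * T z * T'))) / 2) z := by
    have e1 := hD'.div (hD'.const_add 1) hDz
    have e2 := ((hD'.pow 2).const_mul x).div ((hD'.const_mul x).const_add 1) hxDz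
    have e3 := (((hD'.const_add 1).pow 2).const_mul x).mul ((hT.const_mul 2).add (hT.pow 2))
    refine ((((e1.sub hY).sub e2).sub e3).div_const 2).congr_deriv ?_
    simp only [Pi.add_apply, Pi.pow_apply]
    push_cast
    field_simp
    ring
  set K' := (D' / (1 + D z) ^ 2 - Y' - (2 * x * D z * D' * (1 + x * D z) -
      x * D z ^ 2 * (x * D')) / (1 + x * D z) ^ 2 - (2 * x * (1 + D z) * D' * (2 * T z + T z ^ 2)
      + x * (1 + D z) ^ 2 * (2 * T' + 2 * T z * T'))) / 2 with hK'def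
  -- `A`
  obtain ⟨A', hA⟩ : ∃ A', HasDerivAt A A' z :=
    ⟨_, (((hN.div ((hD'.const_add 1).pow 3) (pow_ne_zero 3 hDz)).sub_const 1).sub hT)⟩
  -- values
  have v2 : pw2 (r z) (s z) (y z) (t z) = κ z ^ 2 * (x + x ^ 2 * (1 + D z)) := by
    have e : D z = (pw2 (r z) (s z) (y z) (t z) / κ z ^ 2 - x) / x ^ 2 - 1 := rfl
    rw [e]
    field_simp
    ring
  have v3 : pw3 (r z) (s z) (y z) (t z) =
      κ z ^ 3 * (x + 3 * x ^ 2 * (1 + D z) + x ^ 3 * N z) := by
    have e : N z = (pw3 (r z) (s z) (y z) (t z) / κ z ^ 3 - 3 * x ^ 2 * (1 + D z) - x) / x ^ 3 := rfl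
    rw [e]
    field_simp
    ring
  have v1 : y z * pw2 (r z) (s z) (y z) (t z) + t z * pw3 (r z) (s z) (y z) (t z) =
      x * (κ z - 1) := by
    have e : κ z = pw1 (r z) (s z) (y z) (t z) / x := rfl
    rw [e, pw1_eq, hx, hb]
    field_simp
    ring
  have vN : N z = (1 + D z) ^ 3 * (1 + T z + A z) := by
    have e : A z = N z / (1 + D z) ^ 3 - 1 - T z := rfl
    rw [e]
    field_simp
    ring
  have a1 := alg1 (x := x) (κ := κ z) (D := D z) (N := N z) (y := y z) (t := t z) (y' := y')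
    (t' := t') (κ' := κ') (T' := T') (Y' := Y') hκz v2 v3 v1 rfl rfl
  have a3 := alg3 (x := x) (D := D z) (N := N z) (T := T z) (A := A z) (K := K z) (D' := D')
    (T' := T') (Y' := Y') (K' := K') hDz hxDz vN rfl
  -- the pieces
  have g1 := (hκ.log hκz)
  have g2 := ((hD'.const_add 1).log hDz)
  have g3 := (((hD'.const_mul x).const_add 1).log hxDz)
  have g4 := (hD'.const_mul (x ^ 2 - x)).div ((hD'.const_mul x).const_add 1) hxDz
  have hE : HasDerivAt (fun w => cE x (D w) (T w))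
      (x ^ 2 / 2 * (D' / (1 + D z) - D' - D z * D') + x * D' / (1 + x * D z) / 2
        + (x ^ 2 - x) * D' / (1 + x * D z) ^ 2 / 2
        - (x ^ 3 * (1 + D z) ^ 2 * D' * (2 * T z + T z ^ 2)
          + x ^ 3 / 3 * (1 + D z) ^ 3 * (2 * T' + 2 * T z * T'))) z := by
    have e1 := ((g2.sub hD').sub ((hD'.pow 2).div_const 2)).const_mul (x ^ 2 / 2)
    have e2 := (((hD'.const_add 1).pow 3).const_mul (x ^ 3 / 3)).mul
      ((hT.const_mul 2).add (hT.pow 2))
    refine (((e1.add (g3.div_const 2)).add (g4.div_const 2)).sub e2).congr_deriv ?_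
    simp only [Pi.add_apply, Pi.pow_apply]
    push_cast
    field_simp
    ring
  have hG : HasDerivAt (fun w => cG (A w) (T w))
      (Real.exp (A z) * A' - A' - A z * A' - (A' * T z + A z * T')) z := by
    have e1 := (((hA.exp.sub_const 1).sub hA).sub ((hA.pow 2).div_const 2)).sub (hA.mul hT)
    refine e1.congr_deriv ?_
    push_cast
    ring
  have hTp := (((((((hF.add (((hκ.sub_const 1).sub g1).const_mul x)).sub
    ((hY.const_mul x).div_const 2)).add ((hT.const_mul (2 * x)).div_const 3)).add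
    (((hD'.const_add 1).const_mul (x ^ 2)).mul hK)).sub hE)).div_const 2)
  set P' := ((pw2 (r z) (s z) (y z) (t z) / 2 * y' + pw3 (r z) (s z) (y z) (t z) / 3 * t'
    + x * (κ' - κ' / κ z) - x * Y' / 2 + 2 * x * T' / 3) + x ^ 2 * (D' * K z + (1 + D z) * K') -
      (x ^ 2 / 2 * (D' / (1 + D z) - D' - D z * D') + x * D' / (1 + x * D z) / 2
        + (x ^ 2 - x) * D' / (1 + x * D z) ^ 2 / 2
        - (x ^ 3 * (1 + D z) ^ 2 * D' * (2 * T z + T z ^ 2)
          + x ^ 3 / 3 * (1 + D z) ^ 3 * (2 * T' + 2 * T z * T')))) / 2 with hP'def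
  have hP : 2 * P' = x ^ 2 * K z * D' + x ^ 3 / 3 * (1 + D z) ^ 3 * A z * T' := by
    rw [hP'def]
    linarith [a1, a3]
  have hM' : Real.exp (A z) - 1 - A z - T z = 0 := hM
  have a4 := alg4 (x := x) (D := D z) (T := T z) (A := A z) (K := K z) (G := cG (A z) (T z))
    (D' := D') (T' := T') (A' := A') (P' := P') hM' rfl hP
  have hfin := ((hTp.add ((((hD'.const_add 1).pow 3).const_mul (x ^ 3 / 6)).mul hG)).add
    ((hD'.pow 12).const_mul (x ^ 8 / 16))).sub ((hD'.pow 9).const_mul (x ^ 6 / 72))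
  refine HasDerivAt.congr_deriv hfin ?_
  have a4' : P' + x ^ 3 / 6 * (3 * (1 + D z) ^ 2 * D' * cG (A z) (T z) + (1 + D z) ^ 3 *
      (Real.exp (A z) * A' - A' - A z * A' - (A' * T z + A z * T'))) +
      x ^ 8 / 16 * (12 * D z ^ 11 * D') - x ^ 6 / 72 * (9 * D z ^ 8 * D') =
      x ^ 2 / 2 * cT0 x (T z) (D z) (K z) (A z) * D' := by
    rw [a4]
    unfold cT0
    ring
  rw [← show x ^ 2 / 2 * cT0 x (T z) (D z) (K z) (A z) * D' =
    x ^ 2 / 2 * cT0 x (qT x (r z) (s z) (y z) (t z)) (qD x (r z) (s z) (y z) (t z))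
        (qK x (r z) (s z) (y z) (t z)) (qA x (r z) (s z) (y z) (t z)) * D' from rfl, ← a4', hP'def]
  simp only [Pi.add_apply, Pi.pow_apply, Pi.sub_apply]
  push_cast
  ring

/-- Along a differentiable path `(r, s, y, t)` with `px = x`, `pb = 1`, and `pM = 0` at `z`, the
derivative of `pT5` is `(x^2 / 2) * pT0 * (pD)'`. -/
theorem hasDerivAt_T5 {r s y t : ℝ → ℝ} {r' s' y' t' z x D' : ℝ} (hr : HasDerivAt r r' z)
    (hs : HasDerivAt s s' z) (hy : HasDerivAt y y' z) (ht : HasDerivAt t t' z)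
    (hx : ∀ᶠ w in nhds z, px (r w) (s w) (y w) (t w) = x)
    (hb : ∀ᶠ w in nhds z, pb (r w) (s w) (y w) (t w) = 1)
    (hM : pM (r z) (s z) (y z) (t z) = 0)
    (hr0 : r z ≠ 0) (hs0 : s z ≠ 0) (hrs : s z ≠ r z) (hx0 : x ≠ 0) (hx1 : x ≠ 1)
    (hκ0 : pkap (r z) (s z) (y z) (t z) ≠ 0)
    (hD0 : 1 + pD (r z) (s z) (y z) (t z) ≠ 0)
    (hxD0 : 1 + x * pD (r z) (s z) (y z) (t z) ≠ 0)
    (hD' : HasDerivAt (fun w => pD (r w) (s w) (y w) (t w)) D' z) :
    HasDerivAt (fun w => pT5 (r w) (s w) (y w) (t w))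
      (x ^ 2 / 2 * pT0 (r z) (s z) (y z) (t z) * D') z := by
  have hxz : px (r z) (s z) (y z) (t z) = x := hx.self_of_nhds
  have hbz : pb (r z) (s z) (y z) (t z) = 1 := hb.self_of_nhds
  have hx' : dpx (r z) (s z) (y z) (t z) r' s' y' t' = 0 :=
    (hasDerivAt_px hr hs hy ht).unique ((hasDerivAt_const z x).congr_of_eventuallyEq hx)
  have hb' : dpb (r z) (s z) (y z) (t z) r' s' y' t' = 0 :=
    (hasDerivAt_pb hr hs hy ht).unique ((hasDerivAt_const z (1 : ℝ)).congr_of_eventuallyEq hb)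
  have hqD : (fun w => qD x (r w) (s w) (y w) (t w)) =ᶠ[nhds z]
      fun w => pD (r w) (s w) (y w) (t w) := by
    filter_upwards [hx] with w hw
    rw [pD_eq_q, hw]
  have hDz : pD (r z) (s z) (y z) (t z) = qD x (r z) (s z) (y z) (t z) := by rw [pD_eq_q, hxz]
  have hκz : pkap (r z) (s z) (y z) (t z) = qkap x (r z) (s z) (y z) (t z) := by
    rw [pkap_eq_q, hxz]
  have hAz : pA (r z) (s z) (y z) (t z) = qA x (r z) (s z) (y z) (t z) := by rw [pA_eq_q, hxz]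
  have hTz : pT (r z) (s z) (y z) (t z) = qT x (r z) (s z) (y z) (t z) := by rw [pT_eq_q, hxz]
  have hKz : pK (r z) (s z) (y z) (t z) = qK x (r z) (s z) (y z) (t z) := by rw [pK_eq_q, hxz]
  have key := hasDerivAt_q hr hs hy ht hxz hbz hx' hb' hr0 hs0 (sub_ne_zero.2 hrs) hx0
    (sub_ne_zero.2 (Ne.symm hx1)) (by rwa [← hκz]) (by rwa [← hDz]) (by rwa [← hDz])
    (by rw [← hAz, ← hTz]; exact hM) (hD'.congr_of_eventuallyEq hqD)
  have e0 : pT0 (r z) (s z) (y z) (t z) = cT0 x (qT x (r z) (s z) (y z) (t z))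
      (qD x (r z) (s z) (y z) (t z)) (qK x (r z) (s z) (y z) (t z))
      (qA x (r z) (s z) (y z) (t z)) := by
    unfold pT0
    rw [hxz, hTz, hDz, hKz, hAz]
  rw [e0]
  refine key.congr_of_eventuallyEq ?_
  filter_upwards [hx] with w hw
  unfold pT5 pF
  rw [pkap_eq_q, pY_eq_q, pT_eq_q, pD_eq_q, pK_eq_q, pA_eq_q, hw]

end

end K5C
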