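import Pool.Agent.Lib.K5N.Par

/-!
# K5C.Defs: closed forms of the unrooted generating functions

In terms of the parameters `(r, s, y, t)` of `K5N.Sys` (`pb = 1`, `x = px`) the unrooted generating
functions are elementary functions.
-/

namespace K5C

open K5N

noncomputable section

/-- Free energy of the bipartite maps; `x` is the value of `px`. -/
def cF (x r s y t : ℝ) : ℝ :=
  (x ^ 2 * Real.log (r / x) + Real.log s - (1 - x) ^ 2 * Real.log ((s - r) / (1 - x))
    + 2 * x - x * s - r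
    + y * (x * (s * (s + 2 * r)) + r * (r + 2 * s) - pw2 r s y t) / 2
    + t * (x * (s * (s ^ 2 + 6 * r * s + 3 * r ^ 2)) + r * (r ^ 2 + 6 * r * s + 3 * s ^ 2)
      - 2 * pw3 r s y t) / 3) / 2

/-- `log` of a triangle structure: `e^a - 1 - a - a^2/2 - a T`. -/
def cG (a T : ℝ) : ℝ := Real.exp a - 1 - a - a ^ 2 / 2 - a * T

/-- The elementary part of the passage from map networks to cores. -/
def cE (x D T : ℝ) : ℝ :=
  x ^ 2 / 2 * (Real.log (1 + D) - D - D ^ 2 / 2) + Real.log (1 + x * D) / 2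
    + (x ^ 2 - x) * D / (1 + x * D) / 2 - x ^ 3 / 3 * (1 + D) ^ 3 * (2 * T + T ^ 2)

/-- Unrooted planar cores with marked triangles, in terms of the free energy `F`. -/
def cTp (x F κ Y T D K : ℝ) : ℝ :=
  (F + x * (κ - 1 - Real.log κ) - x * Y / 2 + 2 * x * T / 3 + x ^ 2 * (1 + D) * K - cE x D T) / 2

/-- Unrooted 3-connected graphs of the class. -/
def cT5 (x F κ Y T D K A : ℝ) : ℝ :=
  cTp x F κ Y T D K + x ^ 3 / 6 * (1 + D) ^ 3 * cG A T + x ^ 8 / 16 * D ^ 12 - x ^ 6 / 72 * D ^ 9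

/-- Rooted 3-connected graphs of the class. -/
def cT0 (x T D K A : ℝ) : ℝ :=
  K + x * (1 + D) ^ 2 * cG A T + 3 / 2 * x ^ 6 * D ^ 11 - x ^ 4 * D ^ 8 / 4

/-- Unrooted 2-connected graphs of the class, with weight `v` at every edge. -/
def cB (x v F κ Y T D K A : ℝ) : ℝ :=
  cT5 x F κ Y T D K A - x * D / 2 + Real.log (1 + x * D) / 2
    + x ^ 2 / 2 * (D + D ^ 2 / 2 + (1 + D) * Real.log ((1 + v) / (1 + D)))

/-- The free energy at the parameter point. -/
def pF (r s y t : ℝ) : ℝ := cF (px r s y t) r s y t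

/-- Unrooted 3-connected graphs at the parameter point. -/
def pT5 (r s y t : ℝ) : ℝ :=
  cT5 (px r s y t) (pF r s y t) (pkap r s y t) (pY r s y t) (pT r s y t) (pD r s y t) (pK r s y t)
    (pA r s y t)

/-- Rooted 3-connected graphs at the parameter point. -/
def pT0 (r s y t : ℝ) : ℝ :=
  cT0 (px r s y t) (pT r s y t) (pD r s y t) (pK r s y t) (pA r s y t)

/-- Unrooted 2-connected graphs at the parameter point (edge weight `v`). -/
def pB (v r s y t : ℝ) : ℝ :=
  cB (px r s y t) v (pF r s y t) (pkap r s y t) (pY r s y t) (pT r s y t) (pD r s y t) (pK r s y t)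
    (pA r s y t)

/-- The equation of the marks. -/
def pM (r s y t : ℝ) : ℝ := Real.exp (pA r s y t) - 1 - pA r s y t - pT r s y t

/-- The equation of the networks (edge weight `v`). -/
def pNet (v r s y t : ℝ) : ℝ :=
  Real.log ((1 + pD r s y t) / (1 + v)) -
    px r s y t * pD r s y t ^ 2 / (1 + px r s y t * pD r s y t) - pT0 r s y t

/-- Pointed maps: the partial derivative of the free energy with respect to `x`. -/
def cf (x r s y t : ℝ) : ℝ :=
  x * Real.log (r / x) + (1 - x) * Real.log ((s - r) / (1 - x)) + 1 - s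
    + y * (s * (s + 2 * r)) / 2 + t * (s * (s ^ 2 + 6 * r * s + 3 * r ^ 2)) / 3

/-- The partial derivative of `cE` with respect to `x`. -/
def cEx (x D T : ℝ) : ℝ :=
  x * (Real.log (1 + D) - D - D ^ 2 / 2) + D / (1 + x * D) / 2
    + ((2 * x - 1) * D * (1 + x * D) - (x ^ 2 - x) * D ^ 2) / (1 + x * D) ^ 2 / 2
    - x ^ 2 * (1 + D) ^ 3 * (2 * T + T ^ 2)

/-- The derivative of the generating function of the 2-connected graphs. -/
def cBx (x v f κ Y T D K A : ℝ) : ℝ :=
  (f + κ - 1 - Real.log κ - Y / 2 + 2 * T / 3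
      + x ^ 2 * (1 + D) / 2 * (-(D ^ 2) / (1 + x * D) ^ 2 - (1 + D) ^ 2 * (2 * T + T ^ 2))
      + 2 * x * (1 + D) * K - cEx x D T) / 2
    + x ^ 2 / 2 * (1 + D) ^ 3 * cG A T + x ^ 7 / 2 * D ^ 12 - x ^ 5 / 12 * D ^ 9
    - D / 2 + D / (1 + x * D) / 2
    + x * (D + D ^ 2 / 2 + (1 + D) * Real.log ((1 + v) / (1 + D)))

/-- The derivative of the generating function of the 2-connected graphs at the parameter point. -/
def pBx (v r s y t : ℝ) : ℝ :=
  cBx (px r s y t) v (cf (px r s y t) r s y t) (pkap r s y t) (pY r s y t) (pT r s y t)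
    (pD r s y t) (pK r s y t) (pA r s y t)

end

end K5C
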