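import Pool.Agent.Lib.K5C.Fin
import Pool.Agent.Lib.K5P.Op
import Pool.Agent.Lib.K5L.Box
import Pool.Agent.Lib.K5L.Real1
import Pool.Agent.Lib.K5F.Exact
import Pool.Agent.Lib.K5F.F4

/-!
# K5C.End: the point of the networks near the singularity

`PN_arc`: near `R` the point of the networks is the arc of the singular expansion.  `heB`: the
generating function of the blocks is an analytic function of `√(1 - x/R)`.  `exact_B`: the value
`B'(R) = pBx 1` at the critical point.  `final`: the asymptotic formula with the exact growth constant.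
-/

set_option autoImplicit false

namespace K5C

open K5N K5S K5P Set Filter Topology
open scoped ENNReal

noncomputable section

/-- An admissible point is determined by `(x, D, T)`. -/
theorem good_th_inj (S : K5N.Sys) {r s y t r' s' y' t' : ℝ} (h : Good r s y t)
    (h' : Good r' s' y' t') (hD0 : 0 ≤ pD r s y t) (hx : px r s y t = px r' s' y' t')
    (hD : pD r s y t = pD r' s' y' t') (hT : pT r s y t = pT r' s' y' t') :
    r = r' ∧ s = s' ∧ y = y' ∧ t = t' := by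
  obtain ⟨-, -, e1, e2⟩ := of_good S h hD0
  obtain ⟨-, -, e3, e4⟩ := of_good S h' (by rw [← hD]; exact hD0)
  rw [hx, hD, hT] at e1 e2
  have hy : y = y' := e1.symm.trans e3
  have ht : t = t' := e2.symm.trans e4
  subst hy
  subst ht
  obtain ⟨h1, h2⟩ := good_unique h h' hx
  exact ⟨h1, h2, rfl, rfl⟩

/-- The identification at an admissible point. -/
structure Idt (S : Sys2) (x r s y t : ℝ) : Prop where
  good : Good r s y t
  x_eq : px r s y t = x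
  D_pos : 0 < pD r s y t
  M : pM r s y t = 0
  rc : ser2 S.rc (.ofReal x) (.ofReal (pD r s y t)) = .ofReal (pA r s y t)
  dg : S.Dg (.ofReal x) = .ofReal (pD r s y t)

variable {S : Sys2} {x r s y t : ℝ}

theorem Idt.fin (h : Idt S x r s y t) : S.Dg (.ofReal x) ≠ ⊤ := by
  rw [h.dg]
  exact ENNReal.ofReal_ne_top

theorem Idt.Dr_eq (h : Idt S x r s y t) : Dr S x = pD r s y t := by
  unfold Dr
  rw [h.dg, ENNReal.toReal_ofReal h.D_pos.le]

theorem Idt.tr_eq (h : Idt S x r s y t) : tr S x (Dr S x) = pT r s y t := by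
  have hA : 0 ≤ pA r s y t := (S.toSys.vals h.good h.D_pos.le).2.2.1
  have har : ar S x (Dr S x) = pA r s y t := by
    unfold ar
    rw [h.Dr_eq, h.rc, ENNReal.toReal_ofReal hA]
  have hM := h.M
  unfold pM at hM
  unfold tr
  rw [har]
  linarith

theorem Idt.KK_eq (h : Idt S x r s y t) : KK S.toSys (qp S x (Dr S x)) = pK r s y t := by
  obtain ⟨-, hK, -, h1, -⟩ := S.toSys.vals h.good h.D_pos.le
  unfold KK qp
  rw [h.tr_eq, h.Dr_eq]
  rw [h.x_eq] at h1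
  simp only
  rw [h1, ENNReal.toReal_ofReal hK]

/-- Positivity of the weight `Y'` below `x`. -/
theorem Idt.Yp_pos (h : Idt S x r s y t)
    (hn : pD r s y t / (1 + pD r s y t) - y * pkap r s y t ^ 2 < 1 / 2) {w : ℝ} (hw : 0 < w)
    (hwx : w ≤ x) : 0 < Yp S.toSys (qp S w (Dr S w)) := by
  refine Yp_low hw hwx h.fin ?_ ?_
  · rw [h.Dr_eq, h.rc]
    exact ENNReal.ofReal_ne_top
  · rw [h.KK_eq, h.tr_eq, h.Dr_eq]
    have e1 : x = px r s y t := h.x_eq.symm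
    have e2 : pK r s y t = (pD r s y t / (1 + pD r s y t) - pY r s y t -
        px r s y t * pD r s y t ^ 2 / (1 + px r s y t * pD r s y t) -
        px r s y t * (1 + pD r s y t) ^ 2 * (2 * pT r s y t + pT r s y t ^ 2)) / 2 := rfl
    have e3 : pY r s y t = y * pkap r s y t ^ 2 + 2 * pT r s y t := rfl
    rw [e2, e3, e1]
    linarith

/-- The point of the networks at an identified point below `x1`. -/
theorem Idt.PN_eq (h : Idt S x r s y t) {x1 : ℝ} (hx : 0 < x) (hxx : x < x1) (hx1 : x1 ≤ 1)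
    (hf : S.Dg (.ofReal x1) ≠ ⊤) (hY : 0 < Yp S.toSys (qp S x (Dr S x))) :
    PN S x = (r, s, y, t) := by
  obtain ⟨hok, -, e1, e2, e3, e4, -⟩ := PN_facts hx hxx hx1 hf hY
  obtain ⟨hsub, hth, -, -⟩ := hok.spec
  have hT : pT (PN S x).1 (PN S x).2.1 (PN S x).2.2.1 (PN S x).2.2.2 = tr S x (Dr S x) :=
    congrArg (fun q => q.2.2) hth
  obtain ⟨a1, a2, a3, a4⟩ := good_th_inj S.toSys hsub.toGood h.good
    (by rw [show pD (PX S x (Dr S x)).1 (PX S x (Dr S x)).2.1 (PX S x (Dr S x)).2.2.1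
      (PX S x (Dr S x)).2.2.2 = Dr S x from e3, h.Dr_eq]; exact h.D_pos.le)
    (e1.trans h.x_eq.symm) (e3.trans h.Dr_eq) (hT.trans h.tr_eq)
  exact Prod.ext a1 (Prod.ext a2 (Prod.ext a3 a4))

/-! ### The arc -/

theorem tendsto_sqrt {R : ℝ} (hR : 0 < R) :
    Tendsto (fun x : ℝ => Real.sqrt (1 - x / R)) (𝓝[<] R) (𝓝[≥] (0 : ℝ)) := by
  have h1 : ContinuousAt (fun x : ℝ => Real.sqrt (1 - x / R)) R :=
    Real.continuous_sqrt.continuousAt.comp (continuousAt_const.sub (continuousAt_id.div_const R))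
  have h2 : Tendsto (fun x : ℝ => Real.sqrt (1 - x / R)) (𝓝 R) (𝓝 (Real.sqrt (1 - R / R))) := h1
  rw [div_self hR.ne', sub_self, Real.sqrt_zero] at h2
  exact tendsto_nhdsWithin_iff.2 ⟨h2.mono_left nhdsWithin_le_nhds,
    Eventually.of_forall fun x => Real.sqrt_nonneg _⟩

theorem sqrt_x {R x : ℝ} (hR : 0 < R) (hx : x ≤ R) :
    R * (1 - Real.sqrt (1 - x / R) ^ 2) = x := by
  rw [Real.sq_sqrt (by rw [sub_nonneg, div_le_one hR]; exact hx)]
  field_simp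
  ring

section arc

variable {R : ℝ} {r s y t : ℝ → ℝ}

/-- The arc is the point of the networks. -/
theorem PN_arc (hR : 0 < R) (hR1 : R ≤ 1)
    (hI : ∀ᶠ v in 𝓝[≥] (0 : ℝ), Idt S (R * (1 - v ^ 2)) (r v) (s v) (y v) (t v))
    (hn : pD (r 0) (s 0) (y 0) (t 0) / (1 + pD (r 0) (s 0) (y 0) (t 0)) -
      y 0 * pkap (r 0) (s 0) (y 0) (t 0) ^ 2 < 1 / 2) :
    ∀ᶠ x in 𝓝[<] R, PN S x = (r (Real.sqrt (1 - x / R)), s (Real.sqrt (1 - x / R)),
      y (Real.sqrt (1 - x / R)), t (Real.sqrt (1 - x / R))) := by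
  have h0 : Idt S R (r 0) (s 0) (y 0) (t 0) := by
    have := hI.self_of_nhdsWithin (mem_Ici.2 le_rfl)
    simpa using this
  filter_upwards [(tendsto_sqrt hR).eventually hI, Ioo_mem_nhdsLT hR] with x hx hx'
  rw [sqrt_x hR hx'.2.le] at hx
  exact hx.PN_eq hx'.1 hx'.2 hR1 h0.fin (h0.Yp_pos hn hx'.1 hx'.2.le)

variable (hT : ∀ x z : ℝ≥0∞, ser2 S.tc x z = K5.T0 x z) (hDg : ∀ x, S.Dg x = K5.D x)
  (h : K5F.Hyp) (hR : 0 < R) (hR1 : R < 1) (ar : AnalyticAt ℝ r 0) (as : AnalyticAt ℝ s 0)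
  (ay : AnalyticAt ℝ y 0) (at' : AnalyticAt ℝ t 0)
  (hI : ∀ᶠ v in 𝓝[≥] (0 : ℝ), Idt S (R * (1 - v ^ 2)) (r v) (s v) (y v) (t v))
  (hn : pD (r 0) (s 0) (y 0) (t 0) / (1 + pD (r 0) (s 0) (y 0) (t 0)) -
    y 0 * pkap (r 0) (s 0) (y 0) (t 0) ^ 2 < 1 / 2)

include hR1 hI in
theorem arc_reg : Idt S R (r 0) (s 0) (y 0) (t 0) ∧ Reg (r 0) (s 0) (y 0) (t 0) := by
  have h0 : Idt S R (r 0) (s 0) (y 0) (t 0) := by
    have := hI.self_of_nhdsWithin (mem_Ici.2 le_rfl)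
    simpa using this
  exact ⟨h0, reg_of_good h0.good (by rw [h0.x_eq]; exact hR1) (S.hAS _ _ _ _ h0.good).1
    h0.D_pos.le⟩

include hT hDg h hR hR1 ar as ay at' hI hn in
/-- The generating function of the blocks is an analytic function of `√(1 - x/R)`. -/
theorem heB : ∃ b : ℂ → ℂ, AnalyticAt ℂ b 0 ∧
    ∀ᶠ x in 𝓝[<] R, (K5F.BF x : ℂ) = b ((Real.sqrt (1 - x / R) : ℝ) : ℂ) := by
  obtain ⟨h0, hreg⟩ := arc_reg hR1 hI
  have hf : K5.D (.ofReal R) ≠ ⊤ := by rw [← hDg]; exact h0.fin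
  obtain ⟨b, hb, hbe⟩ := K5L.complexify (an_pB (v := 1) (by norm_num) ar as ay at' hreg)
  rw [Complex.ofReal_zero] at hb
  refine ⟨b, hb, ?_⟩
  have hbe' : ∀ᶠ v : ℝ in 𝓝[≥] (0 : ℝ), b (v : ℂ) = ((pB 1 (r v) (s v) (y v) (t v) : ℝ) : ℂ) :=
    hbe.filter_mono nhdsWithin_le_nhds
  filter_upwards [PN_arc hR hR1.le hI hn, (tendsto_sqrt hR).eventually hbe', Ioo_mem_nhdsLT hR]
    with x hx hx2 hx'
  rw [hx2, BF_point hT hDg h hx'.1 hx'.2 hR1.le hf (h0.Yp_pos hn hx'.1 hx'.2.le), hx]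

include hT hDg h hR hR1 ar as ay at' hI hn in
/-- The value of the derivative of the generating function of the blocks at `R`. -/
theorem exact_B {b : ℂ → ℂ} (hB : K5F.Sg R K5F.Bc b)
    (hsum : Summable (fun n : ℕ => K5T.bb n * R ^ n)) :
    K5T.fr K5T.bb R = pBx 1 (r 0) (s 0) (y 0) (t 0) := by
  obtain ⟨h0, hreg⟩ := arc_reg hR1 hI
  have hf : K5.D (.ofReal R) ≠ ⊤ := by rw [← hDg]; exact h0.fin
  have hYp : ∀ w, 0 < w → w < R → 0 < Yp S.toSys (qp S w (Dr S w)) := fun w hw hwR =>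
    h0.Yp_pos hn hw hwR.le
  refine K5F.exact_value hB hsum (F := K5F.BF)
    (G := fun x => pBx 1 (PN S x).1 (PN S x).2.1 (PN S x).2.2.1 (PN S x).2.2.2) ?_ ?_ ?_
  · filter_upwards [Ioo_mem_nhdsLT hR] with x hx
    refine h.B_fr hx.1 ?_
    rw [← hDg]
    exact Dg_fin hx.2.le h0.fin
  · filter_upwards [Ioo_mem_nhdsLT hR] with x hx
    exact BF_deriv hT hDg h hx.1 hx.2 hR1.le hf hYp
  · have hc : Tendsto (fun v => pBx 1 (r v) (s v) (y v) (t v)) (𝓝[≥] (0 : ℝ))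
        (𝓝 (pBx 1 (r 0) (s 0) (y 0) (t 0))) :=
      (an_pBx (v := 1) (by norm_num) ar as ay at' hreg).continuousAt.tendsto.mono_left
        nhdsWithin_le_nhds
    refine (hc.comp (tendsto_sqrt hR)).congr' ?_
    filter_upwards [PN_arc hR hR1.le hI hn] with x hx
    rw [hx]
    rfl

include hT hDg h hR hR1 ar as ay at' hI hn in
/-- The asymptotic formula with the exact growth constant. -/
theorem final {ζ : ℂ → ℂ} {z0 z2 z3 : ℂ} (hz : K5T.T3 ζ z0 z2 z3) (hz3 : z3 ≠ 0)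
    (heD : ∀ᶠ x in 𝓝[<] R, (K5F.dr x : ℂ) = ζ ((Real.sqrt (1 - x / R) : ℝ) : ℂ))
    (kap : ∑' n : ℕ, (n : ℝ) * K5F.bt n * R ^ n < 1) :
    (∃ K : ℝ, 0 < K ∧ Tendsto (fun n : ℕ => (P512.g n : ℝ) / n.factorial *
      (R * Real.exp (-pBx 1 (r 0) (s 0) (y 0) (t 0))) ^ n * (n : ℝ) ^ (7 / 2 : ℝ)) atTop (𝓝 K)) ∧
    ∀ γ : ℝ, Tendsto (fun n : ℕ => ((P512.g n : ℝ) / n.factorial) ^ (1 / (n : ℝ))) atTop (𝓝 γ) →
      γ = Real.exp (pBx 1 (r 0) (s 0) (y 0) (t 0)) / R := by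
  obtain ⟨h0, -⟩ := arc_reg hR1 hI
  have hD : ∀ x, 0 ≤ x → x < R → K5.D (.ofReal x) ≠ ⊤ := by
    intro x _ hxR
    rw [← hDg]
    exact Dg_fin hxR.le h0.fin
  obtain ⟨b, hb, hbe⟩ := heB hT hDg h hR hR1 ar as ay at' hI hn
  obtain ⟨β, a0, a2, a3, -, -, hs, -⟩ := h.out hR hD hz hz3 heD hb hbe
  have hSg : K5F.Sg R K5F.Bc b := by
    rw [← K5F.Bn_eq_Bc]
    exact h.Sg_Bn hR hD hb hbe
  have hbb : K5T.bb = K5F.bt := by
    funext n
    rfl
  have hex := exact_B hT hDg h hR hR1 ar as ay at' hI hn hSg (by rw [hbb]; exact hs)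
  rw [hbb] at hex
  have := h.F4 hR hD hz hz3 heD hb hbe kap
  rw [hex] at this
  exact this

end arc

end

end K5C
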