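import Pool.Agent.Lib.K5C.Main
import Pool.Agent.Lib.K5P.QPath

/-!
# K5C.Fin: the generating function of the blocks in terms of the subcritical point

`PN S x` is the subcritical point `(r, s, y, t)` of the networks at `x`.  `B(x) = pB 1 (PN S x)`
and `B'(x) = pBx 1 (PN S x)` for all `0 < x < x1`, `D(x1) < ∞`.
-/

set_option autoImplicit false

namespace K5C

open K5N K5S K5P Set Filter Topology
open scoped ENNReal

noncomputable section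

variable {S : Sys2} {x z x1 : ℝ}

/-- The point of the networks. -/
def PN (S : Sys2) (x : ℝ) : ℝ × ℝ × ℝ × ℝ := PX S x (Dr S x)

/-- The facts about the point over `(x, z)`. -/
theorem Ok_facts (h : Ok S x z) :
    SubP (PX S x z) ∧ px (PX S x z).1 (PX S x z).2.1 (PX S x z).2.2.1 (PX S x z).2.2.2 = x ∧
    pb (PX S x z).1 (PX S x z).2.1 (PX S x z).2.2.1 (PX S x z).2.2.2 = 1 ∧
    pD (PX S x z).1 (PX S x z).2.1 (PX S x z).2.2.1 (PX S x z).2.2.2 = z ∧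
    pM (PX S x z).1 (PX S x z).2.1 (PX S x z).2.2.1 (PX S x z).2.2.2 = 0 ∧
    pT0 (PX S x z).1 (PX S x z).2.1 (PX S x z).2.2.1 (PX S x z).2.2.2 = T0r S x z := by
  obtain ⟨h1, h2, h3, h4⟩ := h.spec
  exact ⟨h1, congrArg Prod.fst h2, h1.b_eq, congrArg (fun q => q.2.1) h2, h3, h4⟩

theorem Ok_reg (h : Ok S x z) (hx1 : x < 1) :
    Reg (PX S x z).1 (PX S x z).2.1 (PX S x z).2.2.1 (PX S x z).2.2.2 := by
  obtain ⟨h1, h2, -, h4, -⟩ := Ok_facts h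
  refine reg_of_good h1.toGood (by rw [h2]; exact hx1) (S.hAS _ _ _ _ h1.toGood).1 ?_
  rw [h4]
  exact h.dom.hz.le

theorem Dg_fin (hxx : x ≤ x1) (hf : S.Dg (.ofReal x1) ≠ ⊤) : S.Dg (.ofReal x) ≠ ⊤ := by
  rw [S.hDg] at hf ⊢
  refine ne_top_of_le_ne_top hf ?_
  unfold ser2
  refine ENNReal.tsum_le_tsum fun m => ?_
  have := ENNReal.ofReal_le_ofReal hxx
  gcongr

theorem one_le_Dr (hx : 0 < x) (hf : S.Dg (.ofReal x) ≠ ⊤) : 1 ≤ Dr S x := by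
  obtain ⟨z, h1, h2, -⟩ := S.hNE x 1 hx zero_le_one (by
    rw [ENNReal.ofReal_one, ← S.hDg]; exact hf)
  rw [ENNReal.ofReal_one, ← S.hDg] at h2
  unfold Dr
  rw [h2, ENNReal.toReal_ofReal (by linarith)]
  exact h1

theorem diff_coord {f : ℝ → ℝ × ℝ × ℝ × ℝ} (h : DifferentiableAt ℝ f x) :
    DifferentiableAt ℝ (fun w => (f w).1) x ∧ DifferentiableAt ℝ (fun w => (f w).2.1) x ∧
    DifferentiableAt ℝ (fun w => (f w).2.2.1) x ∧
    DifferentiableAt ℝ (fun w => (f w).2.2.2) x :=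
  ⟨h.fst, h.snd.fst, h.snd.snd.fst, h.snd.snd.snd⟩

theorem tendsto_coord {α : Type*} {f : α → ℝ × ℝ × ℝ × ℝ} {l : Filter α} {a : ℝ × ℝ × ℝ × ℝ}
    (h : Tendsto f l (𝓝 a)) :
    Tendsto (fun w => (f w).1) l (𝓝 a.1) ∧ Tendsto (fun w => (f w).2.1) l (𝓝 a.2.1) ∧
    Tendsto (fun w => (f w).2.2.1) l (𝓝 a.2.2.1) ∧
    Tendsto (fun w => (f w).2.2.2) l (𝓝 a.2.2.2) :=
  ⟨h.fst_nhds, h.snd_nhds.fst_nhds, h.snd_nhds.snd_nhds.fst_nhds, h.snd_nhds.snd_nhds.snd_nhds⟩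

/-- The closed form of the generating function of the blocks. -/
theorem BF_point (hT : ∀ x z : ℝ≥0∞, ser2 S.tc x z = K5.T0 x z)
    (hDg : ∀ x, S.Dg x = K5.D x) (h : K5F.Hyp) (hx : 0 < x) (hxx : x < x1) (hx1 : x1 ≤ 1)
    (hf : K5.D (.ofReal x1) ≠ ⊤) (hY : 0 < Yp S.toSys (qp S x (Dr S x))) :
    K5F.BF x = pB 1 (PN S x).1 (PN S x).2.1 (PN S x).2.2.1 (PN S x).2.2.2 := by
  have hf' : S.Dg (.ofReal x1) ≠ ⊤ := by rw [hDg]; exact hf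
  have hDr : Dr S x = K5F.dr x := by unfold Dr K5F.dr; rw [hDg]
  have hok := ok_path hx hxx hf' hY
  have hx1' : x < 1 := hxx.trans_le hx1
  have hfx' : S.Dg (.ofReal x) ≠ ⊤ := Dg_fin hxx.le hf'
  have hfx : K5.D (.ofReal x) ≠ ⊤ := by rw [← hDg]; exact hfx'
  have h1 : 1 ≤ Dr S x := one_le_Dr hx hfx'
  have hd0 : 0 < K5F.dr x := by rw [← hDr]; linarith
  have hk : ∀ z ∈ Ioo 0 (K5F.dr x), Ok S x z := fun z hz => hok z hz.1 (by rw [hDr]; exact hz.2.le)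
  have hk1 : Ok S x (Dr S x) := hok _ (by linarith) le_rfl
  have hdiff : ∀ z, Ok S x z → DifferentiableAt ℝ (fun w => PX S x w) z := by
    intro z hz
    have e1 : DifferentiableAt ℝ (fun w : ℝ => ((x, w) : ℝ × ℝ)) z :=
      (differentiableAt_const x).prodMk differentiableAt_id
    exact DifferentiableAt.comp z (f := fun w : ℝ => ((x, w) : ℝ × ℝ))
      (g := fun p : ℝ × ℝ => PX S p.1 p.2) hz.diff e1
  obtain ⟨a1, a2, a3, a4⟩ := tendsto_coord (lim0 hx hxx hf' hY)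
  have hc1 : Tendsto (fun w => PX S x w) (𝓝[<] (K5F.dr x)) (𝓝 (PN S x)) := by
    rw [← hDr]
    exact (hdiff _ hk1).continuousAt.tendsto.mono_left nhdsWithin_le_nhds
  obtain ⟨b1, b2, b3, b4⟩ := tendsto_coord hc1
  exact BF_eq (r := fun w => (PX S x w).1) (s := fun w => (PX S x w).2.1)
    (y := fun w => (PX S x w).2.2.1) (t := fun w => (PX S x w).2.2.2) h hx hx1' hfx hd0
    (fun z hz => diff_coord (hdiff z (hk z hz))) (fun z hz => (Ok_facts (hk z hz)).2.1)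
    (fun z hz => (Ok_facts (hk z hz)).2.2.1) (fun z hz => (Ok_facts (hk z hz)).2.2.2.2.1)
    (fun z hz => (Ok_facts (hk z hz)).2.2.2.1) (fun z hz => Ok_reg (hk z hz) hx1')
    (Ok_reg hk1 hx1') a1 a2 a3 a4 b1 b2 b3 b4
    (fun z hz => by
      rw [(Ok_facts (hk z hz)).2.2.2.2.2]
      unfold T0r K5F.T0r
      rw [hT]) (Ok_facts hk1).2.1 (by rw [← hDr]; exact (Ok_facts hk1).2.2.2.1)

/-- The facts about the point of the networks. -/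
theorem PN_facts (hx : 0 < x) (hxx : x < x1) (hx1 : x1 ≤ 1)
    (hf : S.Dg (.ofReal x1) ≠ ⊤) (hY : 0 < Yp S.toSys (qp S x (Dr S x))) :
    Ok S x (Dr S x) ∧ Reg (PN S x).1 (PN S x).2.1 (PN S x).2.2.1 (PN S x).2.2.2 ∧
    px (PN S x).1 (PN S x).2.1 (PN S x).2.2.1 (PN S x).2.2.2 = x ∧
    pb (PN S x).1 (PN S x).2.1 (PN S x).2.2.1 (PN S x).2.2.2 = 1 ∧
    pD (PN S x).1 (PN S x).2.1 (PN S x).2.2.1 (PN S x).2.2.2 = Dr S x ∧
    pM (PN S x).1 (PN S x).2.1 (PN S x).2.2.1 (PN S x).2.2.2 = 0 ∧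
    pNet 1 (PN S x).1 (PN S x).2.1 (PN S x).2.2.1 (PN S x).2.2.2 = 0 := by
  have h1 : 1 ≤ Dr S x := one_le_Dr hx (Dg_fin hxx.le hf)
  have hk1 : Ok S x (Dr S x) := ok_path hx hxx hf hY _ (by linarith) le_rfl
  obtain ⟨-, e2, e3, e4, e5, -⟩ := Ok_facts hk1
  exact ⟨hk1, Ok_reg hk1 (hxx.trans_le hx1), e2, e3, e4, e5, net_eq hx hxx hf hY⟩

/-- The derivative of the closed form. -/
theorem PN_deriv (hx : 0 < x) (hxx : x < x1) (hx1 : x1 ≤ 1) (hf : S.Dg (.ofReal x1) ≠ ⊤)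
    (hY : ∀ w, 0 < w → w < x1 → 0 < Yp S.toSys (qp S w (Dr S w))) :
    HasDerivAt (fun w => pB 1 (PN S w).1 (PN S w).2.1 (PN S w).2.2.1 (PN S w).2.2.2)
      (pBx 1 (PN S x).1 (PN S x).2.1 (PN S x).2.2.1 (PN S x).2.2.2) x := by
  obtain ⟨-, hreg, e1, e2, e3, e4, e5⟩ := PN_facts hx hxx hx1 hf (hY x hx hxx)
  obtain ⟨d1, d2, d3, d4⟩ := diff_coord (top_diff hx hxx hf (hY x hx hxx))
  have hn : ∀ᶠ w in 𝓝 x, w ∈ Ioo 0 x1 := isOpen_Ioo.mem_nhds ⟨hx, hxx⟩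
  refine hasDerivAt_pB d1.hasDerivAt d2.hasDerivAt d3.hasDerivAt d4.hasDerivAt ?_ ?_ e4 e5
    hreg.r0.ne' (hreg.r0.trans hreg.rs).ne' hreg.rs.ne' hx.ne' (hxx.trans_le hx1).ne
    hreg.k0.ne' hreg.D0.ne' (by have := hreg.xD0; rw [e1] at this; exact this.ne') (by norm_num)
  · filter_upwards [hn] with w hw
    exact (PN_facts hw.1 hw.2 hx1 hf (hY w hw.1 hw.2)).2.2.1
  · filter_upwards [hn] with w hw
    exact (PN_facts hw.1 hw.2 hx1 hf (hY w hw.1 hw.2)).2.2.2.1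

/-- The derivative of the generating function of the blocks. -/
theorem BF_deriv (hT : ∀ x z : ℝ≥0∞, ser2 S.tc x z = K5.T0 x z)
    (hDg : ∀ x, S.Dg x = K5.D x) (h : K5F.Hyp) (hx : 0 < x) (hxx : x < x1) (hx1 : x1 ≤ 1)
    (hf : K5.D (.ofReal x1) ≠ ⊤)
    (hY : ∀ w, 0 < w → w < x1 → 0 < Yp S.toSys (qp S w (Dr S w))) :
    HasDerivAt K5F.BF (pBx 1 (PN S x).1 (PN S x).2.1 (PN S x).2.2.1 (PN S x).2.2.2) x := by
  have hf' : S.Dg (.ofReal x1) ≠ ⊤ := by rw [hDg]; exact hf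
  refine (PN_deriv hx hxx hx1 hf' hY).congr_of_eventuallyEq ?_
  have hn : ∀ᶠ w in 𝓝 x, w ∈ Ioo 0 x1 := isOpen_Ioo.mem_nhds ⟨hx, hxx⟩
  filter_upwards [hn] with w hw
  exact BF_point hT hDg h hw.1 hw.2 hx1 hf (hY w hw.1 hw.2)

end

end K5C
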