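import Pool.Agent.Lib.K5C.Law
import Pool.Agent.Lib.K5L.BoxPC
import Pool.Agent.Lib.K5.MkSys2
import Pool.Agent.Lib.K5.Final

/-!
# K5C.Inst: the asymptotic law for graphs without a `K_5` minor, from a point in the box
-/

set_option autoImplicit false

namespace K5C

open K5N Filter Topology
open scoped ENNReal

/-- The instance of the interface. -/
theorem exists_sys2 : ∃ S : K5S.Sys2, (∀ x z : ℝ≥0∞, K5S.ser2 S.tc x z = K5.T0 x z) ∧
    ∀ x, S.Dg x = K5.D x := by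
  obtain ⟨γ, -, -, hg, -, -⟩ := P512.main
  have hγ : Tendsto (fun n : ℕ => ((P512.g n : ℝ) / n.factorial) ^ (1 / (n : ℝ))) atTop (𝓝 γ) := by
    simpa only [P512.numG_eq] using hg
  have hD : ∀ x Y T : ℝ≥0∞, K5M.Dmap x Y T = (fun x Y T k => K5M.S x Y T k) x Y T 2 :=
    fun x Y T => (K5M.S_two x Y T).symm
  have hN : ∀ x Y T : ℝ≥0∞, 1 + 3 * K5M.Dmap x Y T + K5M.S x Y T 3 =
      1 + 3 * (fun x Y T k => K5M.S x Y T k) x Y T 2 + (fun x Y T k => K5M.S x Y T k) x Y T 3 :=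
    fun x Y T => by
      show 1 + 3 * K5M.Dmap x Y T + K5M.S x Y T 3 = 1 + 3 * K5M.S x Y T 2 + K5M.S x Y T 3
      rw [K5M.S_two]
  let S1 : K5N.Sys := K5.mkSys (γ := γ) K5M.Dmap
    (fun x Y T => 1 + 3 * K5M.Dmap x Y T + K5M.S x Y T 3)
    (fun h0 h1 h2 h3 h4 h5 h6 h7 h8 => K5.graphU K5.isShrU h0 h1 h2 h3 h4 h5 h6 h7 h8)
    (fun h0 h1 h2 => K5.graphL K5.isShrL h0 h1 h2)
    K5.Kt_le'
    (fun h0 h1 h2 => K5.blockU_main hγ h0 h1 h2)
    (fun h0 h1 h2 => K5.blockL_main hγ h0 h1 h2)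
    (fun x Y T h0 hx _ _ _ => K5M.map_eq x Y T h0 hx)
    (fun x Y T z S hx _ _ hz hS h => K5M.map_sup x Y T z S hx hz hS h)
    (K5A.algAS K5M.mapIn_S hD hN)
    (K5A.algAR K5M.mapIn_S hD hN)
    (K5A.algAX K5M.mapIn_S hD hN)
  refine ⟨K5.mkSys2 S1 rfl rfl rfl K5.isEx3 K5.wag ?_ (fun x => (K5.Dy_one x).symm), ?_, ?_⟩
  · intro x y hx hy h
    obtain ⟨z, h1, h2, h3, h4, -⟩ := K5.netEq hx hy h
    exact ⟨z, h1, h2, h3, h4⟩
  · intro x z
    exact (K5.T0_eq_ser2 x z).symm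
  · intro x
    rfl

/-- The asymptotic law with the exact growth constant. -/
theorem stage2 {r s y t : ℝ} (hB : K5L.Box r s y t) :
    K5F.Law (Real.exp (pBx 1 r s y t) / px r s y t) := by
  obtain ⟨S, hT, hD⟩ := exists_sys2
  exact law S hT hD hB hB.pc hB.HD_le

end K5C
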