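import Pool.Agent.Lib.K5C.An
import Pool.Agent.Lib.K5C.DT5

/-!
# K5C.Int: integration of `T_0` along the path at fixed `x`
-/

namespace K5C

open K5N Set Filter Topology

noncomputable section

/-! ### The starting point `(x, 1, 0, 0)` -/

theorem px_zero (x : ℝ) : px x 1 0 0 = x := by unfold px; ring
theorem pkap_zero {x : ℝ} (hx : x ≠ 0) : pkap x 1 0 0 = 1 := by
  unfold pkap
  rw [px_zero]
  unfold pw1
  field_simp
  ring
theorem pT_zero {x : ℝ} (_ : x ≠ 0) : pT x 1 0 0 = 0 := by unfold pT; ring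
theorem pY_zero {x : ℝ} (hx : x ≠ 0) : pY x 1 0 0 = 0 := by unfold pY; rw [pT_zero hx]; ring
theorem pD_zero {x : ℝ} (hx : x ≠ 0) : pD x 1 0 0 = 0 := by
  unfold pD
  rw [pkap_zero hx, px_zero]
  unfold pw2
  field_simp
  ring
theorem pN_zero {x : ℝ} (hx : x ≠ 0) : pN x 1 0 0 = 1 := by
  unfold pN
  rw [pkap_zero hx, px_zero, pD_zero hx]
  unfold pw3
  field_simp
  ring
theorem pA_zero {x : ℝ} (hx : x ≠ 0) : pA x 1 0 0 = 0 := by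
  unfold pA
  rw [pN_zero hx, pD_zero hx, pT_zero hx]
  norm_num
theorem pK_zero {x : ℝ} (hx : x ≠ 0) : pK x 1 0 0 = 0 := by
  unfold pK
  rw [pD_zero hx, pT_zero hx, pY_zero hx]
  norm_num
theorem pF_zero {x : ℝ} (hx : x ≠ 0) : pF x 1 0 0 = 0 := by
  unfold pF cF
  rw [px_zero, div_self hx]
  rcases eq_or_ne (1 - x) 0 with h | h
  · rw [h]; norm_num; linarith
  · rw [div_self h]; norm_num; ring
theorem pT5_zero {x : ℝ} (hx : x ≠ 0) : pT5 x 1 0 0 = 0 := by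
  unfold pT5 cT5 cTp cE cG
  rw [pF_zero hx, px_zero, pkap_zero hx, pY_zero hx, pT_zero hx, pD_zero hx, pK_zero hx,
    pA_zero hx]
  norm_num

theorem reg_zero {x : ℝ} (hx0 : 0 < x) (hx1 : x < 1) : Reg x 1 0 0 where
  r0 := hx0
  rs := hx1
  x0 := by rw [px_zero]; exact hx0
  x1 := by rw [px_zero]; exact hx1
  k0 := by rw [pkap_zero hx0.ne']; exact one_pos
  D0 := by rw [pD_zero hx0.ne']; norm_num
  xD0 := by rw [pD_zero hx0.ne']; norm_num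

theorem co1 (e : ℝ × ℝ × ℝ × ℝ) : AnalyticAt ℝ (fun p : ℝ × ℝ × ℝ × ℝ => p.1) e := analyticAt_fst
theorem co2 (e : ℝ × ℝ × ℝ × ℝ) : AnalyticAt ℝ (fun p : ℝ × ℝ × ℝ × ℝ => p.2.1) e :=
  (analyticAt_fst (p := e.2)).comp (analyticAt_snd (p := e))
theorem co3 (e : ℝ × ℝ × ℝ × ℝ) : AnalyticAt ℝ (fun p : ℝ × ℝ × ℝ × ℝ => p.2.2.1) e :=
  AnalyticAt.comp (f := fun p : ℝ × ℝ × ℝ × ℝ => p.2.2) (g := fun q : ℝ × ℝ => q.1)
    (analyticAt_fst (p := e.2.2))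
    (AnalyticAt.comp (f := fun p : ℝ × ℝ × ℝ × ℝ => p.2) (g := fun q : ℝ × ℝ × ℝ => q.2)
      (analyticAt_snd (p := e.2)) (analyticAt_snd (p := e)))
theorem co4 (e : ℝ × ℝ × ℝ × ℝ) : AnalyticAt ℝ (fun p : ℝ × ℝ × ℝ × ℝ => p.2.2.2) e :=
  AnalyticAt.comp (f := fun p : ℝ × ℝ × ℝ × ℝ => p.2.2) (g := fun q : ℝ × ℝ => q.2)
    (analyticAt_snd (p := e.2.2))
    (AnalyticAt.comp (f := fun p : ℝ × ℝ × ℝ × ℝ => p.2) (g := fun q : ℝ × ℝ × ℝ => q.2)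
      (analyticAt_snd (p := e.2)) (analyticAt_snd (p := e)))

theorem tendsto_comp4 {f : ℝ → ℝ → ℝ → ℝ → ℝ} {r0 s0 y0 t0 : ℝ}
    (h : AnalyticAt ℝ (fun p : ℝ × ℝ × ℝ × ℝ => f p.1 p.2.1 p.2.2.1 p.2.2.2) (r0, s0, y0, t0))
    {α : Type*} {r s y t : α → ℝ} {l : Filter α} (hr : Tendsto r l (𝓝 r0))
    (hs : Tendsto s l (𝓝 s0)) (hy : Tendsto y l (𝓝 y0)) (ht : Tendsto t l (𝓝 t0)) :
    Tendsto (fun w => f (r w) (s w) (y w) (t w)) l (𝓝 (f r0 s0 y0 t0)) :=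
  h.continuousAt.tendsto.comp (hr.prodMk_nhds (hs.prodMk_nhds (hy.prodMk_nhds ht)))

/-- Continuity of `pT5` at a regular point. -/
theorem tendsto_pT5' {r0 s0 y0 t0 : ℝ} (h : Reg r0 s0 y0 t0) {α : Type*} {r s y t : α → ℝ}
    {l : Filter α} (hr : Tendsto r l (𝓝 r0)) (hs : Tendsto s l (𝓝 s0)) (hy : Tendsto y l (𝓝 y0))
    (ht : Tendsto t l (𝓝 t0)) :
    Tendsto (fun w => pT5 (r w) (s w) (y w) (t w)) l (𝓝 (pT5 r0 s0 y0 t0)) :=
  tendsto_comp4 (an_pT5 (co1 _) (co2 _) (co3 _) (co4 _) h) hr hs hy ht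

theorem tendsto_pT5 {x : ℝ} (hx0 : 0 < x) (hx1 : x < 1) {α : Type*} {r s y t : α → ℝ}
    {l : Filter α} (hr : Tendsto r l (𝓝 x)) (hs : Tendsto s l (𝓝 1)) (hy : Tendsto y l (𝓝 0))
    (ht : Tendsto t l (𝓝 0)) : Tendsto (fun w => pT5 (r w) (s w) (y w) (t w)) l (𝓝 0) := by
  have h := tendsto_pT5' (reg_zero hx0 hx1) hr hs hy ht
  rwa [pT5_zero hx0.ne'] at h

/-- The integral of the rooted 3-connected graphs. -/
theorem int_T0 {x z1 : ℝ} (hx0 : 0 < x) (hx1 : x < 1) (hz1 : 0 < z1) {r s y t : ℝ → ℝ}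
    {r1 s1 y1 t1 : ℝ}
    (hd : ∀ z ∈ Ioo 0 z1, DifferentiableAt ℝ r z ∧ DifferentiableAt ℝ s z ∧
      DifferentiableAt ℝ y z ∧ DifferentiableAt ℝ t z)
    (hx : ∀ z ∈ Ioo 0 z1, px (r z) (s z) (y z) (t z) = x)
    (hb : ∀ z ∈ Ioo 0 z1, pb (r z) (s z) (y z) (t z) = 1)
    (hM : ∀ z ∈ Ioo 0 z1, pM (r z) (s z) (y z) (t z) = 0)
    (hD : ∀ z ∈ Ioo 0 z1, pD (r z) (s z) (y z) (t z) = z)
    (hg : ∀ z ∈ Ioo 0 z1, Reg (r z) (s z) (y z) (t z)) (h1 : Reg r1 s1 y1 t1)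
    (hr0 : Tendsto r (𝓝[>] 0) (𝓝 x)) (hs0 : Tendsto s (𝓝[>] 0) (𝓝 1))
    (hy0 : Tendsto y (𝓝[>] 0) (𝓝 0)) (ht0 : Tendsto t (𝓝[>] 0) (𝓝 0))
    (hr1 : Tendsto r (𝓝[<] z1) (𝓝 r1)) (hs1 : Tendsto s (𝓝[<] z1) (𝓝 s1))
    (hy1 : Tendsto y (𝓝[<] z1) (𝓝 y1)) (ht1 : Tendsto t (𝓝[<] z1) (𝓝 t1))
    {τ : ℝ → ℝ} (hT : ∀ z ∈ Ioo 0 z1, pT0 (r z) (s z) (y z) (t z) = τ z)
    (hi : IntervalIntegrable τ MeasureTheory.volume 0 z1) :
    x ^ 2 / 2 * ∫ z in (0 : ℝ)..z1, τ z = pT5 r1 s1 y1 t1 := by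
  rw [← intervalIntegral.integral_const_mul]
  have key := intervalIntegral.integral_eq_sub_of_hasDerivAt_of_tendsto
    (f := fun w => pT5 (r w) (s w) (y w) (t w)) (f' := fun z => x ^ 2 / 2 * τ z)
    (fa := 0) (fb := pT5 r1 s1 y1 t1) hz1 (fun z hz => ?_) (hi.const_mul _)
    (tendsto_pT5 hx0 hx1 hr0 hs0 hy0 ht0) (tendsto_pT5' h1 hr1 hs1 hy1 ht1)
  · rw [key, sub_zero]
  · obtain ⟨dr, ds, dy, dt⟩ := hd z hz
    have hn : ∀ᶠ w in 𝓝 z, w ∈ Ioo 0 z1 := isOpen_Ioo.mem_nhds hz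
    have hD' : HasDerivAt (fun w => pD (r w) (s w) (y w) (t w)) 1 z :=
      (hasDerivAt_id z).congr_of_eventuallyEq (by filter_upwards [hn] with w hw using hD w hw)
    have h := hasDerivAt_T5 dr.hasDerivAt ds.hasDerivAt dy.hasDerivAt dt.hasDerivAt
      (x := x) (by filter_upwards [hn] with w hw using hx w hw)
      (by filter_upwards [hn] with w hw using hb w hw) (hM z hz) (hg z hz).r0.ne'
      ((hg z hz).r0.trans (hg z hz).rs).ne' (hg z hz).rs.ne' hx0.ne' hx1.ne (hg z hz).k0.ne'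
      (hg z hz).D0.ne' (by have := (hg z hz).xD0; rw [hx z hz] at this; exact this.ne') hD'
    rw [hT z hz, mul_one] at h
    exact h

/-- The integral of the series networks. -/
theorem int_series {x z1 : ℝ} (hx0 : 0 < x) (hz1 : 0 ≤ z1) :
    x ^ 2 / 2 * ∫ z in (0 : ℝ)..z1, x * z ^ 2 / (1 + x * z) =
      x ^ 2 / 2 * (z1 ^ 2 / 2) - x * z1 / 2 + Real.log (1 + x * z1) / 2 := by
  have hpos : ∀ z ∈ uIcc 0 z1, 0 < 1 + x * z := by
    intro z hz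
    rw [uIcc_of_le hz1] at hz
    have := hz.1
    positivity
  rw [intervalIntegral.integral_eq_sub_of_hasDerivAt
    (f := fun z => z ^ 2 / 2 - z / x + Real.log (1 + x * z) / x ^ 2)
    (f' := fun z => x * z ^ 2 / (1 + x * z))]
  · rw [mul_zero, add_zero, Real.log_one]
    field_simp
    ring
  · intro z hz
    have h0 := hpos z hz
    have e1 := (((hasDerivAt_id z).const_mul x).const_add 1).log h0.ne'
    refine ((((hasDerivAt_id z).pow 2).div_const 2).sub ((hasDerivAt_id z).div_const x)).add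
      (e1.div_const (x ^ 2)) |>.congr_deriv ?_
    simp only [id]
    field_simp
    ring
  · apply ContinuousOn.intervalIntegrable
    exact ContinuousOn.div (by fun_prop) (by fun_prop) fun z hz => (hpos z hz).ne'

end

end K5C
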