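import Pool.Agent.Lib.K5C.Int
import Pool.Agent.Lib.K5C.DB
import Pool.Agent.Lib.K5F.Glue

/-!
# K5C.Main: the closed form of the generating function of the blocks
-/

set_option autoImplicit false

namespace K5C

open K5N Set Filter Topology

noncomputable section

/-- An admissible point with `x < 1` and `0 ≤ D` is regular. -/
theorem reg_of_good {r s y t : ℝ} (h : Good r s y t) (hx : px r s y t < 1)
    (hk : 0 < pkap r s y t) (hD : 0 ≤ pD r s y t) : Reg r s y t where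
  r0 := h.r_pos
  rs := by
    have hr := h.r_pos
    have hs := h.s_pos
    have h1 : 0 ≤ y * (r + s) := mul_nonneg h.y_nonneg (by linarith)
    have h2 : 0 ≤ t * (r ^ 2 + 4 * r * s + s ^ 2) := mul_nonneg h.t_nonneg (by positivity)
    have h3 := h.j_nonneg
    have h4 := h.b_eq
    unfold pj at h3
    have h5 : (s - r) * (1 - y * (r + s) - t * (r ^ 2 + 4 * r * s + s ^ 2)) =
        pb r s y t - px r s y t := by
      unfold px pb
      ring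
    rw [h4] at h5
    have h6 : 0 < 1 - y * (r + s) - t * (r ^ 2 + 4 * r * s + s ^ 2) := by
      nlinarith
    by_contra hcon
    have h7 : (s - r) * (1 - y * (r + s) - t * (r ^ 2 + 4 * r * s + s ^ 2)) ≤ 0 :=
      mul_nonpos_of_nonpos_of_nonneg (by linarith) h6.le
    linarith
  x0 := h.x_pos
  x1 := hx
  k0 := hk
  D0 := by linarith
  xD0 := by
    have := mul_nonneg h.x_pos.le hD
    linarith

/-- The closed form of the generating function of the blocks. -/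
theorem BF_eq {x : ℝ} (h : K5F.Hyp) (hx0 : 0 < x) (hx1 : x < 1) (hDx : K5.D (.ofReal x) ≠ ⊤)
    (hd0 : 0 < K5F.dr x) {r s y t : ℝ → ℝ} {r1 s1 y1 t1 : ℝ}
    (hd : ∀ z ∈ Ioo 0 (K5F.dr x), DifferentiableAt ℝ r z ∧ DifferentiableAt ℝ s z ∧
      DifferentiableAt ℝ y z ∧ DifferentiableAt ℝ t z)
    (hx : ∀ z ∈ Ioo 0 (K5F.dr x), px (r z) (s z) (y z) (t z) = x)
    (hb : ∀ z ∈ Ioo 0 (K5F.dr x), pb (r z) (s z) (y z) (t z) = 1)
    (hM : ∀ z ∈ Ioo 0 (K5F.dr x), pM (r z) (s z) (y z) (t z) = 0)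
    (hD : ∀ z ∈ Ioo 0 (K5F.dr x), pD (r z) (s z) (y z) (t z) = z)
    (hg : ∀ z ∈ Ioo 0 (K5F.dr x), Reg (r z) (s z) (y z) (t z)) (h1 : Reg r1 s1 y1 t1)
    (hr0 : Tendsto r (𝓝[>] 0) (𝓝 x)) (hs0 : Tendsto s (𝓝[>] 0) (𝓝 1))
    (hy0 : Tendsto y (𝓝[>] 0) (𝓝 0)) (ht0 : Tendsto t (𝓝[>] 0) (𝓝 0))
    (hr1 : Tendsto r (𝓝[<] (K5F.dr x)) (𝓝 r1)) (hs1 : Tendsto s (𝓝[<] (K5F.dr x)) (𝓝 s1))
    (hy1 : Tendsto y (𝓝[<] (K5F.dr x)) (𝓝 y1)) (ht1 : Tendsto t (𝓝[<] (K5F.dr x)) (𝓝 t1))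
    (hT : ∀ z ∈ Ioo 0 (K5F.dr x), pT0 (r z) (s z) (y z) (t z) = K5F.T0r x z)
    (hx1' : px r1 s1 y1 t1 = x) (hD1 : pD r1 s1 y1 t1 = K5F.dr x) :
    K5F.BF x = pB 1 r1 s1 y1 t1 := by
  set d := K5F.dr x with hddef
  have hTc : ContinuousOn (K5F.T0r x) (uIcc 0 d) := by
    rw [uIcc_of_le hd0.le]
    exact h.T0r_cont_dr hx0 hDx
  have hi := hTc.intervalIntegrable (μ := MeasureTheory.volume)
  have e1 := int_T0 hx0 hx1 hd0 hd hx hb hM hD hg h1 hr0 hs0 hy0 ht0 hr1 hs1 hy1 ht1 hT hi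
  have e2 := int_series (z1 := d) hx0 hd0.le
  have hi2 : IntervalIntegrable (fun z : ℝ => x * z ^ 2 / (1 + x * z)) MeasureTheory.volume 0 d := by
    apply ContinuousOn.intervalIntegrable
    refine ContinuousOn.div (by fun_prop) (by fun_prop) fun z hz => ?_
    rw [uIcc_of_le hd0.le] at hz
    have := mul_nonneg hx0.le hz.1
    linarith
  have e3 : Real.log ((1 + d) / 2) = -Real.log ((1 + 1) / (1 + d)) := by
    rw [← Real.log_inv, inv_div]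
    norm_num
  unfold K5F.BF
  rw [← hddef, intervalIntegral.integral_add hi2 hi, e3]
  have e4 : x ^ 2 / 2 * (d - (1 + d) * -Real.log ((1 + 1) / (1 + d)) +
      ((∫ z in (0 : ℝ)..d, x * z ^ 2 / (1 + x * z)) + ∫ z in (0 : ℝ)..d, K5F.T0r x z)) =
      x ^ 2 / 2 * (d + (1 + d) * Real.log ((1 + 1) / (1 + d))) +
      x ^ 2 / 2 * (∫ z in (0 : ℝ)..d, x * z ^ 2 / (1 + x * z)) +
      x ^ 2 / 2 * ∫ z in (0 : ℝ)..d, K5F.T0r x z := by ring
  rw [e4, e1, e2]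
  unfold pT5 pB cB
  rw [hx1', hD1]
  ring

end

end K5C
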